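import Pool.Agent.H780Z.SD.Det

set_option autoImplicit false
set_option linter.unusedSectionVars false

/-! Counting robust solutions; large solutions force a nearly singular basis. -/

namespace Pool.Agent.H780Z.SD

open Finset

variable {m n : Type*} [Fintype m] [Fintype n] [DecidableEq m] [DecidableEq n]

variable {A : m → n → ℝ} {b : m → ℝ} {c : n → ℝ} {I : Finset m} {J : Finset n} {t : ℝ}
  {x : n → ℝ} {w y : m → ℝ} {z : n → ℝ}

lemma card_sep {β : Type*} (S : Finset β) (ψ : β → ℝ) {κ Ψ : ℝ} (hκ : 0 < κ) (hΨ : 1 ≤ Ψ)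
    (h1 : ∀ a ∈ S, 1 ≤ ψ a) (h2 : ∀ a ∈ S, ψ a ≤ Ψ)
    (h : ∀ a ∈ S, ∀ a' ∈ S, a ≠ a' → κ * ψ a ≤ |ψ a - ψ a'|) :
    (S.card : ℝ) ≤ Real.log Ψ / κ + 1 := by
  have key : ∀ a ∈ S, ∀ a' ∈ S, a ≠ a' → ψ a' ≤ ψ a →
      ⌊Real.log (ψ a') / κ⌋₊ < ⌊Real.log (ψ a) / κ⌋₊ := by
    intro a ha a' ha' hne hle
    have p1 : 0 < ψ a := by linarith [h1 a ha]
    have p2 : 0 < ψ a' := by linarith [h1 a' ha']
    have e1 := h a ha a' ha' hne
    rw [abs_of_nonneg (by linarith)] at e1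
    have e2 := Real.one_sub_inv_le_log_of_pos (div_pos p1 p2)
    rw [Real.log_div p1.ne' p2.ne', inv_div] at e2
    have e3 : κ ≤ 1 - ψ a' / ψ a := by
      rw [le_sub_iff_add_le, ← le_sub_iff_add_le', div_le_iff₀ p1]
      linarith
    have e4 : Real.log (ψ a') / κ + 1 ≤ Real.log (ψ a) / κ := by
      rw [div_add_one hκ.ne', div_le_div_iff_of_pos_right hκ]
      linarith
    have e5 : 0 ≤ Real.log (ψ a') / κ := div_nonneg (Real.log_nonneg (h1 a' ha')) hκ.le
    have e6 := Nat.floor_mono e4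
    rw [Nat.floor_add_one e5] at e6
    omega
  have hc : S.card ≤ (range (⌊Real.log Ψ / κ⌋₊ + 1)).card := by
    refine card_le_card_of_injOn (fun a => ⌊Real.log (ψ a) / κ⌋₊) (fun a ha => ?_)
      fun a ha a' ha' hf => ?_
    · have ha' : a ∈ S := ha
      have p1 : 0 < ψ a := by linarith [h1 a ha']
      simp only [coe_range, Set.mem_Iio]
      exact Nat.lt_succ_of_le (Nat.floor_mono
        (div_le_div_of_nonneg_right (Real.log_le_log p1 (h2 a ha')) hκ.le))
    · by_contra hne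
      rcases le_total (ψ a) (ψ a') with hle | hle
      · exact (key a' ha' a ha (Ne.symm hne) hle).ne hf
      · exact (key a ha a' ha' hne hle).ne' hf
  rw [card_range] at hc
  have h3 : (S.card : ℝ) ≤ (⌊Real.log Ψ / κ⌋₊ : ℝ) + 1 := by exact_mod_cast hc
  have h4 := Nat.floor_le (div_nonneg (Real.log_nonneg hΨ) hκ.le)
  linarith

lemma cross_ge {I' : Finset m} {J' : Finset n} {t' : ℝ} {x' : n → ℝ} {w' y' : m → ℝ}
    {z' : n → ℝ} (h : Sol A b c I J t x w y z) (h' : Sol A b c I' J' t' x' w' y' z')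
    (hc : I.card = J.card) (hc' : I'.card = J'.card) (hne : (I, J) ≠ (I', J'))
    {η X Y' : ℝ} (hX : 0 ≤ η * X) (hY : 0 ≤ η * Y') (g1 : ∀ j ∈ J, η * X ≤ x j)
    (g2 : ∀ i, i ∉ I → η * X ≤ w i) (g3 : ∀ i ∈ I', η * Y' ≤ y' i)
    (g4 : ∀ j, j ∉ J' → η * Y' ≤ z' j) :
    η * X * (η * Y') ≤ ∑ j, x j * z' j + ∑ i, w i * y' i := by
  have n1 : ∀ j, 0 ≤ x j * z' j := fun j => mul_nonneg (h.x0 j) (h'.z0 j)
  have n2 : ∀ i, 0 ≤ w i * y' i := fun i => mul_nonneg (h.w0 i) (h'.y0 i)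
  have s1 : 0 ≤ ∑ j, x j * z' j := sum_nonneg fun j _ => n1 j
  have s2 : 0 ≤ ∑ i, w i * y' i := sum_nonneg fun i _ => n2 i
  by_cases hJ : J ⊆ J'
  · by_cases hI : I' ⊆ I
    · exfalso
      have c1 := card_le_card hJ
      have c2 := card_le_card hI
      have e1 : I' = I := eq_of_subset_of_card_le hI (by omega)
      have e2 : J = J' := eq_of_subset_of_card_le hJ (by omega)
      exact hne (by rw [e1, e2])
    · obtain ⟨i, hi, hi'⟩ := not_subset.mp hI
      have e1 := single_le_sum (fun i _ => n2 i) (mem_univ i)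
      have e2 := mul_le_mul (g2 i hi') (g3 i hi) hY (h.w0 i)
      linarith
  · obtain ⟨j, hj, hj'⟩ := not_subset.mp hJ
    have e1 := single_le_sum (fun j _ => n1 j) (mem_univ j)
    have e2 := mul_le_mul (g1 j hj) (g4 j hj') hY (h.x0 j)
    linarith

/-- the pattern `(I, J)` carries a robust solution -/
def GoodPair (η Φ : ℝ) (A : m → n → ℝ) (b : m → ℝ) (c : n → ℝ) (I : Finset m) (J : Finset n) :
    Prop :=
  ∃ t x w y z, Sol A b c I J t x w y z ∧ Good η Φ I J x w ∧ Good η Φ J I y z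

lemma count_good {η Φ D : ℝ} (hη : 0 < η) (hΦ : 1 ≤ Φ) (hD : 0 < D) (hb : ∀ i, |b i| ≤ D)
    (hc : ∀ j, |c j| ≤ D) (S : Finset (Finset m × Finset n))
    (hS : ∀ p ∈ S, p.1.card = p.2.card ∧ p.2.Nonempty ∧ GoodPair η Φ A b c p.1 p.2) :
    (S.card : ℝ) ≤ Real.log ((Fintype.card m + Fintype.card n + 1) * (2 * Φ)) /
      (η ^ 2 / (D * (Fintype.card m + Fintype.card n + 1))) + 1 := by
  set N : ℝ := Fintype.card m + Fintype.card n + 1 with hN
  have hm0 : (0 : ℝ) ≤ Fintype.card m := Nat.cast_nonneg _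
  have hn0 : (0 : ℝ) ≤ Fintype.card n := Nat.cast_nonneg _
  have hN1 : 1 ≤ N := by linarith
  have hex : ∀ p ∈ S, ∃ (t X Y : ℝ) (x : n → ℝ) (w y : m → ℝ) (z : n → ℝ),
      Sol A b c p.1 p.2 t x w y z ∧ t ≤ D ∧ 1 ≤ X ∧ X ≤ Φ ∧ 1 ≤ Y ∧ Y ≤ Φ ∧
      1 + (∑ j, x j + ∑ i, y i) ≤ N * (X + Y) ∧
      (∀ j ∈ p.2, η * X ≤ x j) ∧ (∀ i, i ∉ p.1 → η * X ≤ w i) ∧
      (∀ i ∈ p.1, η * Y ≤ y i) ∧ ∀ j, j ∉ p.2 → η * Y ≤ z j := by
    intro p hp
    obtain ⟨-, ⟨j, hj⟩, t, x, w, y, z, h, ⟨X, a1, a2, a3, a4, a5⟩, Y, b1, b2, b3, b4, b5⟩ := hS p hp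
    refine ⟨t, X, Y, x, w, y, z, h, h.t_le hb hc (j := j) ?_, a1, a2, b1, b2, ?_, a4, a5, b4, b5⟩
    · exact lt_of_lt_of_le (by positivity) (a4 j hj)
    · have e1 : ∑ j, x j ≤ Fintype.card n * X := by
        simpa using sum_le_card_nsmul univ x X fun j _ => a3 j
      have e2 : ∑ i, y i ≤ Fintype.card m * Y := by
        simpa using sum_le_card_nsmul univ y Y fun i _ => b3 i
      nlinarith
  choose! t X Y x w y z hs ht X1 X2 Y1 Y2 hφ g1 g2 g3 g4 using hex
  refine card_sep S (fun p => 1 + (∑ j, x p j + ∑ i, y p i)) (by positivity) (by nlinarith)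
    (fun p hp => ?_) (fun p hp => ?_) fun p hp q hq hne => ?_
  · have := sum_nonneg fun j (_ : j ∈ univ) => (hs p hp).x0 j
    have := sum_nonneg fun i (_ : i ∈ univ) => (hs p hp).y0 i
    linarith
  · have := hφ p hp
    have := X2 p hp
    have := Y2 p hp
    nlinarith
  · have xp := X1 p hp
    have yp := Y1 p hp
    have xq := X1 q hq
    have yq := Y1 q hq
    have c1 := cross_ge (hs p hp) (hs q hq) (hS p hp).1 (hS q hq).1 hne (η := η) (X := X p)
      (Y' := Y q) (by positivity) (by positivity) (g1 p hp) (g2 p hp) (g3 q hq) (g4 q hq)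
    have c2 := cross_ge (hs q hq) (hs p hp) (hS q hq).1 (hS p hp).1 hne.symm (η := η) (X := X q)
      (Y' := Y p) (by positivity) (by positivity) (g1 q hq) (g2 q hq) (g3 p hp) (g4 p hp)
    have c3 := (hs p hp).cross (hs q hq)
    set u := ∑ j, x p j + ∑ i, y p i
    set v := ∑ j, x q j + ∑ i, y q i
    have c4 : (t p - t q) * (v - u) ≤ D * |1 + u - (1 + v)| := by
      refine (le_abs_self _).trans ?_
      rw [abs_mul, show 1 + u - (1 + v) = -(v - u) by ring, abs_neg]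
      refine mul_le_mul_of_nonneg_right (abs_le.mpr ⟨?_, ?_⟩) (abs_nonneg _)
      · linarith [(hs p hp).t0, ht q hq]
      · linarith [(hs q hq).t0, ht p hp]
    have c5 : η ^ 2 * (X p + Y p) ≤ η * X p * (η * Y q) + η * X q * (η * Y p) := by
      have : X p + Y p ≤ X p * Y q + X q * Y p := by nlinarith
      nlinarith [sq_nonneg η]
    have c6 : η ^ 2 * (1 + u) ≤ N * (D * |1 + u - (1 + v)|) := by
      have := mul_le_mul_of_nonneg_left (hφ p hp) (sq_nonneg η)
      nlinarith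
    rw [div_mul_eq_mul_div, div_le_iff₀ (by positivity)]
    linarith

/-- the rows in `I` of the columns in `J` are independent -/
def Inj (A : m → n → ℝ) (I : Finset m) (J : Finset n) : Prop :=
  ∀ y : m → ℝ, (∀ i, i ∉ I → y i = 0) → (∀ j ∈ J, ∑ i, A i j * y i = 0) → y = 0

/-- the rows in `I` of the columns in `J` span -/
def Sur (A : m → n → ℝ) (I : Finset m) (J : Finset n) : Prop :=
  ∀ r : n → ℝ, ∃ y : m → ℝ, (∀ i, i ∉ I → y i = 0) ∧ ∀ j ∈ J, ∑ i, A i j * y i = r j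

/-- column `j₀` is close to the span of the other columns -/
def Near (ε : ℝ) (A : m → n → ℝ) (I : Finset m) (J : Finset n) (i₀ : m) (j₀ : n) : Prop :=
  ∃ v : m → ℝ, v i₀ = 1 ∧ (∀ i, i ∉ I → v i = 0) ∧ (∀ j ∈ J, j ≠ j₀ → ∑ i, A i j * v i = 0) ∧
    |∑ i, A i j₀ * v i| ≤ ε

lemma Sol.near (h : Sol A b c I J t x w y z) (hs : Sur A I J) {D Φ : ℝ} (hΦ : 0 < Φ)
    (hb : ∀ i, |b i| ≤ D) (hc : ∀ j, |c j| ≤ D) {j : n} (hj : Φ < x j) :
    ∃ i₀ j₀, Near (2 * Fintype.card m * D / Φ) A I J i₀ j₀ := by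
  have ht := h.t_le hb hc (hΦ.trans hj)
  have hjJ : j ∈ J := by
    by_contra hn
    rw [h.xs j hn] at hj
    linarith
  obtain ⟨v, v1, v2⟩ := hs (Pi.single j 1)
  have e1 : x j = ∑ i, v i * (b i + t) := by
    have f1 : ∑ k, x k * ∑ i, A i k * v i = x j := by
      rw [sum_eq_single j]
      · rw [v2 j hjJ]; simp
      · intro k _ hk
        by_cases hkJ : k ∈ J
        · rw [v2 k hkJ]; simp [hk]
        · rw [h.xs k hkJ, zero_mul]
      · simp
    rw [← f1]
    simp only [mul_sum]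
    rw [sum_comm]
    refine sum_congr rfl fun i _ => ?_
    have f2 : ∑ k, x k * (A i k * v i) = v i * ∑ k, A i k * x k := by
      rw [mul_sum]; exact sum_congr rfl fun k _ => by ring
    rw [f2]
    by_cases hi : i ∈ I
    · have := h.pr i
      rw [h.ws i hi, add_zero] at this
      rw [this]
    · rw [v1 i hi, zero_mul, zero_mul]
  have hne : (univ : Finset m).Nonempty := by
    rcases (univ : Finset m).eq_empty_or_nonempty with h0 | h0
    · rw [h0, sum_empty] at e1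
      linarith
    · exact h0
  obtain ⟨i₀, -, hi₀⟩ := exists_max_image univ (fun i => |v i|) hne
  have e2 : x j ≤ Fintype.card m * (|v i₀| * (2 * D)) := by
    rw [e1]
    have := sum_le_card_nsmul univ (fun i => v i * (b i + t)) (|v i₀| * (2 * D)) fun i _ => by
      refine (le_abs_self _).trans ?_
      rw [abs_mul]
      refine mul_le_mul (hi₀ i (mem_univ _)) (abs_le.mpr ⟨?_, ?_⟩) (abs_nonneg _) (abs_nonneg _)
      · linarith [abs_le.mp (hb i), h.t0, (abs_nonneg _).trans (hb i)]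
      · linarith [abs_le.mp (hb i)]
    simpa using this
  have hv : v i₀ ≠ 0 := by
    intro h0
    rw [h0] at e2
    simp at e2
    linarith
  have e3 : ∀ k, ∑ i, A i k * (v i / v i₀) = (∑ i, A i k * v i) / v i₀ := fun k => by
    rw [sum_div]; exact sum_congr rfl fun i _ => by ring
  refine ⟨i₀, j, fun i => v i / v i₀, div_self hv, fun i hi => by simp [v1 i hi],
    fun k hk hkj => ?_, ?_⟩
  · rw [e3, v2 k hk]; simp [hkj]
  · rw [e3, v2 j hjJ, Pi.single_eq_same, abs_div, abs_one,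
      div_le_div_iff₀ (abs_pos.mpr hv) hΦ]
    linarith

lemma Near.fiber {A' : m → n → ℝ} {ε : ℝ} {i₀ : m} {j₀ : n} (hi : Inj A I J)
    (h : Near ε A I J i₀ j₀) (h' : Near ε A' I J i₀ j₀)
    (hA : ∀ i j, (i, j) ≠ (i₀, j₀) → A' i j = A i j) : |A i₀ j₀ - A' i₀ j₀| ≤ 2 * ε := by
  obtain ⟨v, v1, v2, v3, v4⟩ := h
  obtain ⟨u, u1, u2, u3, u4⟩ := h'
  set a := ∑ i, A i j₀ * v i with ha
  set a' := ∑ i, A i j₀ * u i with ha'
  have e1 := hi (fun i => a * u i - a' * v i) (fun i h => by simp [u2 i h, v2 i h]) fun j hj => by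
    have f : ∑ i, A i j * (a * u i - a' * v i) =
        a * ∑ i, A i j * u i - a' * ∑ i, A i j * v i := by
      rw [mul_sum, mul_sum, ← sum_sub_distrib]
      exact sum_congr rfl fun i _ => by ring
    rw [f]
    by_cases hjj : j = j₀
    · rw [hjj, ← ha, ← ha']; ring
    · have f2 := u3 j hj hjj
      rw [sum_congr rfl fun i _ => by rw [hA i j fun e => hjj (congrArg Prod.snd e)]] at f2
      rw [f2, v3 j hj hjj]; ring
  have e2 : a = a' := by
    have := congrFun e1 i₀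
    simp only [u1, v1, mul_one, Pi.zero_apply] at this
    linarith
  have e3 : a' - ∑ i, A' i j₀ * u i = A i₀ j₀ - A' i₀ j₀ := by
    rw [ha', ← sum_sub_distrib, sum_eq_single i₀]
    · rw [u1]; ring
    · intro i _ hii
      rw [hA i j₀ fun e => hii (congrArg Prod.fst e)]; ring
    · simp
  rw [← e3, ← e2]
  have := abs_sub a (∑ i, A' i j₀ * u i)
  linarith

end Pool.Agent.H780Z.SD
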