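import Mathlib

set_option autoImplicit false

/-! Deterministic part: complementary solutions of the parametric program, the column operation
that makes them robust, and the counting of robust solutions. -/

namespace Pool.Agent.H780Z.SD

open Finset

variable {m n : Type*} [Fintype m] [Fintype n] [DecidableEq m] [DecidableEq n]

/-- a primal dual pair of optimal solutions of `LP(t)` with pattern `(I, J)` -/
structure Sol (A : m → n → ℝ) (b : m → ℝ) (c : n → ℝ) (I : Finset m) (J : Finset n) (t : ℝ)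
    (x : n → ℝ) (w y : m → ℝ) (z : n → ℝ) : Prop where
  t0 : 0 ≤ t
  pr : ∀ i, ∑ j, A i j * x j + w i = b i + t
  du : ∀ j, ∑ i, A i j * y i - z j = c j - t
  x0 : ∀ j, 0 ≤ x j
  w0 : ∀ i, 0 ≤ w i
  y0 : ∀ i, 0 ≤ y i
  z0 : ∀ j, 0 ≤ z j
  xs : ∀ j, j ∉ J → x j = 0
  ws : ∀ i ∈ I, w i = 0
  ys : ∀ i, i ∉ I → y i = 0
  zs : ∀ j ∈ J, z j = 0

/-- all basic variables are at least a fixed fraction of the size -/
def Good (η Φ : ℝ) (I : Finset m) (J : Finset n) (x : n → ℝ) (w : m → ℝ) : Prop :=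
  ∃ X : ℝ, 1 ≤ X ∧ X ≤ Φ ∧ (∀ j, x j ≤ X) ∧ (∀ j ∈ J, η * X ≤ x j) ∧ ∀ i, i ∉ I → η * X ≤ w i

variable {A : m → n → ℝ} {b : m → ℝ} {c : n → ℝ} {I : Finset m} {J : Finset n} {t : ℝ}
  {x : n → ℝ} {w y : m → ℝ} {z : n → ℝ}

omit [DecidableEq m] [DecidableEq n] in
lemma Sol.dual (h : Sol A b c I J t x w y z) {A' : n → m → ℝ} {b' : n → ℝ} {c' : m → ℝ}
    (hA : ∀ j i, A' j i = -A i j) (hb : ∀ j, b' j = -c j) (hc : ∀ i, c' i = -b i) :
    Sol A' b' c' J I t y z x w := by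
  refine ⟨h.t0, fun j => ?_, fun i => ?_, h.y0, h.z0, h.x0, h.w0, h.ys, h.zs, h.xs, h.ws⟩
  · simp only [hA, hb, neg_mul, sum_neg_distrib]
    linarith [h.du j]
  · simp only [hA, hc, neg_mul, sum_neg_distrib]
    linarith [h.pr i]

lemma Sol.shift (h : Sol A b c I J t x w y z) {η Φ : ℝ} (hη : 0 ≤ η) (hη1 : η ≤ 1 / 2) (hΦ : 1 ≤ Φ)
    (hx : ∀ j, x j ≤ 1) {b' : m → ℝ}
    (hb : ∀ i, b' i = b i + 2 * η * (∑ j ∈ J, A i j + if i ∈ I then 0 else 1)) :
    ∃ x' w', Sol A b' c I J t x' w' y z ∧ Good η (2 * Φ) I J x' w' := by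
  refine ⟨fun j => x j + if j ∈ J then 2 * η else 0, fun i => w i + if i ∈ I then 0 else 2 * η,
    ⟨h.t0, fun i => ?_, h.du, fun j => ?_, fun i => ?_, h.y0, h.z0, fun j hj => ?_,
      fun i hi => ?_, h.ys, h.zs⟩, 2, by norm_num, by linarith, fun j => ?_, fun j hj => ?_,
      fun i hi => ?_⟩
  · have e : ∑ j, A i j * (x j + if j ∈ J then 2 * η else 0) =
        ∑ j, A i j * x j + 2 * η * ∑ j ∈ J, A i j := by
      simp only [mul_add, sum_add_distrib, mul_ite, mul_zero, sum_ite_mem, univ_inter, mul_sum]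
      congr 1
      exact sum_congr rfl fun j _ => by ring
    rw [e, hb]
    have := h.pr i
    split_ifs <;> linarith
  · have := h.x0 j
    split_ifs <;> linarith
  · have := h.w0 i
    split_ifs <;> linarith
  · simp [hj, h.xs j hj]
  · simp [hi, h.ws i hi]
  · have := hx j
    beta_reduce
    split_ifs <;> linarith
  · have := h.x0 j
    simp only [hj, if_true]
    linarith
  · have := h.w0 i
    simp only [hi, if_false]
    linarith

lemma Sol.column (h : Sol A b c I J t x w y z) {η Φ α : ℝ} (hη : 0 ≤ η) (hη1 : η ≤ 1 / 4)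
    {j₀ : n} (hj : j₀ ∈ J) (h1 : 1 ≤ x j₀) (hΦ : x j₀ ≤ Φ) (hx : ∀ j, x j ≤ x j₀)
    (hρ : 2 * η * (J.erase j₀).card ≤ 1 / 2) (hα : α * (1 - 2 * η * (J.erase j₀).card) = 1)
    {A' : m → n → ℝ} {c' : n → ℝ} (hA : ∀ i j, j ≠ j₀ → A' i j = A i j)
    (hA0 : ∀ i, A' i j₀ = α * A i j₀ -
      α * (2 * η) * (∑ k ∈ J.erase j₀, A i k + if i ∈ I then 0 else 1))
    (hc : ∀ j, j ≠ j₀ → c' j = c j)
    (hc0 : c' j₀ = α * c j₀ - α * (2 * η) * ∑ k ∈ J.erase j₀, c k) :
    ∃ x' w', Sol A' b c' I J t x' w' y z ∧ Good η (2 * Φ) I J x' w' := by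
  set X := x j₀ with hX
  set ρ := 2 * η * ((J.erase j₀).card : ℝ) with hρd
  have hρ0 : 0 ≤ ρ := by positivity
  have hηX : 0 ≤ η * X := by positivity
  refine ⟨fun j => if j = j₀ then (1 - ρ) * X else x j + if j ∈ J.erase j₀ then 2 * η * X else 0,
    fun i => w i + if i ∈ I then 0 else 2 * η * X,
    ⟨h.t0, fun i => ?_, fun j => ?_, fun j => ?_, fun i => ?_, h.y0, h.z0, fun j hj' => ?_,
      fun i hi => ?_, h.ys, h.zs⟩, 2 * X, by linarith, by linarith, fun j => ?_, fun j hj' => ?_,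
      fun i hi => ?_⟩
  · have e0 := h.pr i
    rw [← add_sum_erase _ _ (mem_univ j₀)] at e0 ⊢
    have e1 : ∑ j ∈ univ.erase j₀, A' i j *
        (if j = j₀ then (1 - ρ) * X else x j + if j ∈ J.erase j₀ then 2 * η * X else 0) =
        ∑ j ∈ univ.erase j₀, A i j * x j + 2 * η * X * ∑ k ∈ J.erase j₀, A i k := by
      rw [sum_congr rfl fun j hj' => by rw [hA i j (ne_of_mem_erase hj'),
        if_neg (ne_of_mem_erase hj')]]
      simp only [mul_add, sum_add_distrib, mul_ite, mul_zero, sum_ite_mem, mul_sum]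
      congr 1
      rw [inter_eq_right.mpr (erase_subset_erase _ (subset_univ J))]
      exact sum_congr rfl fun j _ => by ring
    rw [e1, if_pos rfl, hA0]
    have e2 : ∀ u : ℝ, α * u * ((1 - ρ) * X) = u * X := fun u => by
      linear_combination u * X * hα
    have e3 := e2 (A i j₀ - (2 * η) * (∑ k ∈ J.erase j₀, A i k + if i ∈ I then 0 else 1))
    split_ifs at e3 ⊢ <;> linarith
  · by_cases hjj : j = j₀
    · subst hjj
      have e1 : ∑ i, A' i j * y i = α * ∑ i, A i j * y i -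
          α * (2 * η) * ∑ k ∈ J.erase j, ∑ i, A i k * y i := by
        rw [sum_comm, mul_sum, mul_sum, ← sum_sub_distrib]
        refine sum_congr rfl fun i _ => ?_
        rw [hA0, ← sum_mul]
        by_cases hi : i ∈ I
        · rw [if_pos hi]; ring
        · rw [h.ys i hi]; ring
      have e2 : ∑ k ∈ J.erase j, ∑ i, A i k * y i =
          ∑ k ∈ J.erase j, c k - (J.erase j).card * t := by
        rw [← nsmul_eq_mul, ← sum_const, ← sum_sub_distrib]
        refine sum_congr rfl fun k hk => ?_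
        have := h.du k
        rw [h.zs k (mem_of_mem_erase hk)] at this
        linarith
      have e3 := h.du j
      rw [h.zs j hj] at e3 ⊢
      rw [e1, e2, hc0, show ∑ i, A i j * y i = c j - t by linarith]
      linear_combination (-t) * hα
    · rw [hc j hjj, ← h.du j]
      simp only [hA _ j hjj]
  · have := h.x0 j
    split_ifs
    · exact mul_nonneg (by linarith) (by linarith)
    · linarith
    · linarith
  · have := h.w0 i
    split_ifs <;> linarith
  · have : j ≠ j₀ := fun e => hj' (e ▸ hj)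
    simp [this, hj', h.xs j hj']
  · simp [hi, h.ws i hi]
  · have := hx j
    beta_reduce
    split_ifs <;> nlinarith
  · have := h.x0 j
    beta_reduce
    by_cases hjj : j = j₀
    · rw [if_pos hjj]; nlinarith
    · rw [if_neg hjj, if_pos (mem_erase.mpr ⟨hjj, hj'⟩)]; linarith
  · have := h.w0 i
    simp only [hi, if_false]
    linarith

omit [DecidableEq m] [DecidableEq n] in
/-- the duality computation for two parameters -/
lemma Sol.cross {I' : Finset m} {J' : Finset n} {t' : ℝ} {x' : n → ℝ} {w' y' : m → ℝ}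
    {z' : n → ℝ} (h : Sol A b c I J t x w y z) (h' : Sol A b c I' J' t' x' w' y' z') :
    (∑ j, x j * z' j + ∑ i, w i * y' i) + (∑ j, x' j * z j + ∑ i, w' i * y i) =
      (t - t') * ((∑ j, x' j + ∑ i, y' i) - (∑ j, x j + ∑ i, y i)) := by
  have key : ∀ {I₁ I₂ : Finset m} {J₁ J₂ : Finset n} {t₁ t₂ : ℝ} {x₁ x₂ z₁ z₂ : n → ℝ}
      {w₁ w₂ y₁ y₂ : m → ℝ}, Sol A b c I₁ J₁ t₁ x₁ w₁ y₁ z₁ → Sol A b c I₂ J₂ t₂ x₂ w₂ y₂ z₂ →
      ∑ j, x₁ j * z₂ j + ∑ i, w₁ i * y₂ i =
        ∑ i, b i * y₂ i + t₁ * ∑ i, y₂ i - ∑ j, c j * x₁ j + t₂ * ∑ j, x₁ j := by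
    intro I₁ I₂ J₁ J₂ t₁ t₂ x₁ x₂ z₁ z₂ w₁ w₂ y₁ y₂ h₁ h₂
    have e1 : ∑ j, x₁ j * z₂ j =
        ∑ j, ∑ i, A i j * x₁ j * y₂ i - ∑ j, c j * x₁ j + t₂ * ∑ j, x₁ j := by
      rw [mul_sum, ← sum_sub_distrib, ← sum_add_distrib]
      refine sum_congr rfl fun j _ => ?_
      have e := h₂.du j
      have e' : ∑ i, A i j * x₁ j * y₂ i = x₁ j * ∑ i, A i j * y₂ i := by
        rw [mul_sum]; exact sum_congr rfl fun i _ => by ring
      rw [e']
      linear_combination (-x₁ j) * e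
    have e2 : ∑ i, w₁ i * y₂ i =
        ∑ i, b i * y₂ i + t₁ * ∑ i, y₂ i - ∑ i, ∑ j, A i j * x₁ j * y₂ i := by
      rw [mul_sum, ← sum_add_distrib, ← sum_sub_distrib]
      refine sum_congr rfl fun i _ => ?_
      have e := h₁.pr i
      rw [← sum_mul]
      linear_combination (y₂ i) * e
    rw [e1, e2, sum_comm]
    ring
  have z0 : ∀ {I₁ : Finset m} {J₁ : Finset n} {t₁ : ℝ} {x₁ z₁ : n → ℝ}
      {w₁ y₁ : m → ℝ}, Sol A b c I₁ J₁ t₁ x₁ w₁ y₁ z₁ →
      ∑ j, x₁ j * z₁ j + ∑ i, w₁ i * y₁ i = 0 := by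
    intro I₁ J₁ t₁ x₁ z₁ w₁ y₁ h₁
    rw [sum_eq_zero, sum_eq_zero, add_zero]
    · intro i _
      by_cases hi : i ∈ I₁
      · rw [h₁.ws i hi, zero_mul]
      · rw [h₁.ys i hi, mul_zero]
    · intro j _
      by_cases hj : j ∈ J₁
      · rw [h₁.zs j hj, mul_zero]
      · rw [h₁.xs j hj, zero_mul]
  have a1 := key h h'
  have a2 := key h' h
  have a3 := key h h
  have a4 := key h' h'
  rw [z0 h] at a3
  rw [z0 h'] at a4
  linarith

omit [DecidableEq m] [DecidableEq n] in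
/-- for large parameter the only solution is zero -/
lemma Sol.t_le (h : Sol A b c I J t x w y z) {D : ℝ} (hb : ∀ i, |b i| ≤ D) (hc : ∀ j, |c j| ≤ D)
    {j : n} (hj : 0 < x j) : t ≤ D := by
  by_contra hlt
  push Not at hlt
  have e1 : ∑ j, (c j - t) * x j = ∑ i, (b i + t) * y i := by
    have f1 : ∑ j, (c j - t) * x j = ∑ j, ∑ i, A i j * x j * y i := by
      refine sum_congr rfl fun j _ => ?_
      have e' : ∑ i, A i j * x j * y i = x j * ∑ i, A i j * y i := by
        rw [mul_sum]; exact sum_congr rfl fun i _ => by ring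
      have e0 : x j * z j = 0 := by
        by_cases hj : j ∈ J
        · rw [h.zs j hj, mul_zero]
        · rw [h.xs j hj, zero_mul]
      rw [e']
      linear_combination (-x j) * h.du j - e0
    have f2 : ∑ i, (b i + t) * y i = ∑ i, ∑ j, A i j * x j * y i := by
      refine sum_congr rfl fun i _ => ?_
      have e0 : w i * y i = 0 := by
        by_cases hi : i ∈ I
        · rw [h.ws i hi, zero_mul]
        · rw [h.ys i hi, mul_zero]
      rw [← sum_mul]
      linear_combination (-y i) * h.pr i + e0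
    rw [f1, f2, sum_comm]
  have e2 : 0 ≤ ∑ i, (b i + t) * y i :=
    sum_nonneg fun i _ => mul_nonneg (by linarith [abs_le.mp (hb i)]) (h.y0 i)
  have e3 : ∑ j, (c j - t) * x j < ∑ _j : n, (0 : ℝ) :=
    sum_lt_sum (fun k _ => mul_nonpos_of_nonpos_of_nonneg (by linarith [abs_le.mp (hc k)]) (h.x0 k))
      ⟨j, mem_univ _, mul_neg_of_neg_of_pos (by linarith [abs_le.mp (hc j)]) hj⟩
  simp only [sum_const_zero] at e3
  linarith

end Pool.Agent.H780Z.SD
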