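import Pool.Agent.H780Z.SD.Link

set_option autoImplicit false

/-! The smoothed bound for the self dual parametric simplex method. -/

namespace Pool.Agent.H780Z.SD

open MeasureTheory ProbabilityTheory

/-- the bases met by the parametric method -/
def pathSet {m n : ℕ} (A : Matrix (Fin m) (Fin n) ℝ) (b : Fin m → ℝ) (c : Fin n → ℝ) :
    Set (Finset (Fin n ⊕ Fin m)) :=
  {B : Finset (Fin n ⊕ Fin m) | B.card = m ∧
    LinearIndependent ℝ
      (fun q : B => (Matrix.transpose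
        (Matrix.fromCols A (1 : Matrix (Fin m) (Fin m) ℝ))) q.1) ∧
    ∃ t : ℝ, 0 ≤ t ∧
      (∃ x : Fin n → ℝ, ∃ w : Fin m → ℝ,
        (∀ j : Fin n, 0 ≤ x j) ∧ (∀ i : Fin m, 0 ≤ w i) ∧
        (∀ i : Fin m, (∑ j : Fin n, A i j * x j) + w i = b i + t) ∧
        (∀ j : Fin n, (Sum.inl j : Fin n ⊕ Fin m) ∉ B → x j = 0) ∧
        (∀ i : Fin m, (Sum.inr i : Fin n ⊕ Fin m) ∉ B → w i = 0)) ∧
      (∃ y : Fin m → ℝ,
        (∀ i : Fin m, 0 ≤ y i) ∧
        (∀ j : Fin n, c j - t ≤ ∑ i : Fin m, A i j * y i) ∧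
        (∀ j : Fin n, (Sum.inl j : Fin n ⊕ Fin m) ∈ B →
          ∑ i : Fin m, A i j * y i = c j - t) ∧
        (∀ i : Fin m, (Sum.inr i : Fin n ⊕ Fin m) ∈ B → y i = 0))}

lemma onPath_of_mem {m n : ℕ} {A : Matrix (Fin m) (Fin n) ℝ} {b : Fin m → ℝ} {c : Fin n → ℝ}
    {B : Finset (Fin n ⊕ Fin m)} (h : B ∈ pathSet A b c) :
    OnPath (fun i j => A i j) b c B.toRightᶜ B.toLeft := by
  obtain ⟨h1, h2, t, ht, ⟨x, w, a1, a2, a3, a4, a5⟩, y, b1, b2, b3, b4⟩ := h
  obtain ⟨p1, p2, p3⟩ := basis_props (fun i j => A i j) B (by simpa using h1)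
    (fun q => (Matrix.transpose (Matrix.fromCols A (1 : Matrix (Fin m) (Fin m) ℝ))) q)
    (fun j i => rfl) (fun k i => by simp [Matrix.one_apply]) h2
  refine ⟨p1, p2, p3, t, x, w, y, fun j => ∑ i, A i j * y i - (c j - t), ht, a3,
    fun j => by ring, a1, a2, b1, fun j => sub_nonneg.mpr (b2 j),
    fun j hj => a4 j (by simpa using hj), fun i hi => a5 i (by simpa using hi),
    fun i hi => b4 i (by simpa using hi), fun j hj => ?_⟩
  rw [b3 j (by simpa using hj), sub_self]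

lemma ncard_zero {m n : ℕ} (b : Fin m → ℝ) (c : Fin n → ℝ) :
    (pathSet (0 : Matrix (Fin m) (Fin n) ℝ) b c).ncard ≤ 1 := by
  have key : ∀ B ∈ pathSet (0 : Matrix (Fin m) (Fin n) ℝ) b c,
      B = Finset.univ.map ⟨Sum.inr, Sum.inr_injective⟩ := by
    rintro B ⟨h1, h2, -⟩
    refine Finset.eq_of_subset_of_card_le (fun q hq => ?_) (by simp [h1])
    cases q with
    | inl j => exact absurd (by ext i; simp) (h2.ne_zero ⟨_, hq⟩)
    | inr i => simp
  exact (Set.ncard_le_one_iff (Set.toFinite _)).mpr fun ha hb => (key _ ha).trans (key _ hb).symm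

lemma lint_ncard_le {Ω β γ : Type*} [MeasurableSpace Ω] [Fintype β] [Fintype γ] (P : Measure Ω)
    (S : Ω → Set β) (f : β → γ) (hf : Function.Injective f) (E : γ → Set Ω)
    (h : ∀ ω, ∀ B ∈ S ω, ω ∈ E (f B)) :
    ∫⁻ ω, ((S ω).ncard : ENNReal) ∂P ≤ ∑ p, P (E p) := by
  classical
  have hm : ∀ p, MeasurableSet (toMeasurable P (E p)) := fun p => measurableSet_toMeasurable _ _
  have e : ∑ p, P (E p) = ∑ p, ∫⁻ ω, (toMeasurable P (E p)).indicator 1 ω ∂P :=
    Finset.sum_congr rfl fun p _ => by rw [lintegral_indicator_one (hm p), measure_toMeasurable]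
  rw [e, ← lintegral_finsetSum _ fun p _ => measurable_one.indicator (hm p)]
  refine lintegral_mono fun ω => ?_
  simp only [Set.indicator_apply, Pi.one_apply, Finset.sum_boole]
  rw [Nat.cast_le, ← Set.ncard_coe_finset]
  refine Set.ncard_le_ncard_of_injOn f (fun B hB => ?_) hf.injOn (Set.toFinite _)
  simpa using subset_toMeasurable P _ (h ω B hB)

theorem main {m n : ℕ} {σ : ℝ} (h0 : 0 < σ) (h1 : σ ≤ 1) (A₀ : Matrix (Fin m) (Fin n) ℝ)
    (b₀ : Fin m → ℝ) (c₀ : Fin n → ℝ) (F : ℝ)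
    (hF : F = Real.sqrt ((∑ i : Fin m, ∑ j : Fin n, A₀ i j ^ 2)
      + (∑ i : Fin m, b₀ i ^ 2) + (∑ j : Fin n, c₀ j ^ 2))) :
    ∫⁻ ω : ((Fin m × Fin n) ⊕ (Fin m ⊕ Fin n)) → ℝ, ((pathSet
      (A₀ + (σ * F) • Matrix.of (fun (i : Fin m) (j : Fin n) => ω (Sum.inl (i, j))))
      (b₀ + (σ * F) • (fun i : Fin m => ω (Sum.inr (Sum.inl i))))
      (c₀ + (σ * F) • (fun j : Fin n => ω (Sum.inr (Sum.inr j))))).ncard : ENNReal)
      ∂(Measure.pi (fun _ : (Fin m × Fin n) ⊕ (Fin m ⊕ Fin n) => gaussianReal 0 1)) ≤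
      ENNReal.ofReal (10 ^ 10 * ((m : ℝ) + n + 1 / σ) ^ 17) := by
  have hσ : 1 ≤ 1 / σ := by rw [le_div_iff₀ h0]; linarith
  have hm0 : (0 : ℝ) ≤ m := Nat.cast_nonneg _
  have hn0 : (0 : ℝ) ≤ n := Nat.cast_nonneg _
  have hM : 1 ≤ (m : ℝ) + n + 1 / σ := by linarith
  have s1 : 0 ≤ ∑ i : Fin m, ∑ j : Fin n, A₀ i j ^ 2 := by positivity
  have s2 : 0 ≤ ∑ i : Fin m, b₀ i ^ 2 := by positivity
  have s3 : 0 ≤ ∑ j : Fin n, c₀ j ^ 2 := by positivity
  have hA : ∀ i j, |A₀ i j| ≤ F := fun i j => by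
    rw [hF]
    refine Real.abs_le_sqrt ?_
    have e1 : A₀ i j ^ 2 ≤ ∑ j, A₀ i j ^ 2 :=
      Finset.single_le_sum (f := fun j => A₀ i j ^ 2) (fun _ _ => sq_nonneg _) (Finset.mem_univ j)
    have e2 : ∑ j, A₀ i j ^ 2 ≤ ∑ i, ∑ j, A₀ i j ^ 2 :=
      Finset.single_le_sum (f := fun i => ∑ j, A₀ i j ^ 2) (fun _ _ => by positivity)
        (Finset.mem_univ i)
    linarith
  have hb : ∀ i, |b₀ i| ≤ F := fun i => by
    rw [hF]
    refine Real.abs_le_sqrt ?_
    have e1 : b₀ i ^ 2 ≤ ∑ i, b₀ i ^ 2 :=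
      Finset.single_le_sum (f := fun i => b₀ i ^ 2) (fun _ _ => sq_nonneg _) (Finset.mem_univ i)
    linarith
  have hc : ∀ j, |c₀ j| ≤ F := fun j => by
    rw [hF]
    refine Real.abs_le_sqrt ?_
    have e1 : c₀ j ^ 2 ≤ ∑ j, c₀ j ^ 2 :=
      Finset.single_le_sum (f := fun j => c₀ j ^ 2) (fun _ _ => sq_nonneg _) (Finset.mem_univ j)
    linarith
  have hF0 : 0 ≤ F := hF ▸ Real.sqrt_nonneg _
  rcases hF0.eq_or_lt with hz | hp
  · have hA0 : A₀ = 0 := by
      ext i j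
      exact abs_nonpos_iff.mp (hz ▸ hA i j)
    rw [← hz, hA0]
    simp only [mul_zero, zero_smul, add_zero]
    rw [lintegral_const, measure_univ, mul_one]
    refine le_trans (Nat.cast_le.mpr (ncard_zero b₀ c₀)) ?_
    rw [Nat.cast_one, ENNReal.one_le_ofReal]
    have := one_le_pow₀ hM (n := 17)
    linarith
  let μ : Lab (Fin m) (Fin n) → ℝ := fun e =>
    Sum.elim (fun p : Fin m × Fin n => A₀ p.1 p.2) (Sum.elim b₀ c₀) e / F
  have hμ : ∀ e, |μ e| ≤ 1 := fun e => by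
    simp only [μ]
    rw [abs_div, abs_of_pos hp, div_le_one hp]
    rcases e with p | i | j
    · exact hA _ _
    · exact hb _
    · exact hc _
  let v : NNReal := NNReal.mk (σ ^ 2) (sq_nonneg σ)
  have hpres : MeasurePreserving (fun (ω : Lab (Fin m) (Fin n) → ℝ) e => μ e + σ * ω e)
      (Measure.pi fun _ => gaussianReal 0 1) (Measure.pi fun e => gaussianReal (μ e) v) := by
    refine measurePreserving_pi _ _ (f := fun e x => μ e + σ * x) fun e => ⟨by fun_prop, ?_⟩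
    have : (fun x : ℝ => μ e + σ * x) = (fun x => μ e + x) ∘ fun x => σ * x := rfl
    rw [this, ← Measure.map_map (by fun_prop) (by fun_prop), gaussianReal_map_const_mul,
      gaussianReal_map_const_add]
    simp [v]
  refine (lint_ncard_le _ _ (fun B : Finset (Fin n ⊕ Fin m) => (B.toRightᶜ, B.toLeft))
    (fun B B' h => ?_) (fun p => (fun (ω : Lab (Fin m) (Fin n) → ℝ) e => μ e + σ * ω e) ⁻¹'
      {ω | OnPath (dA 1 id ω) (db 1 id ω) (dc 1 id ω) p.1 p.2}) fun ω B hB => ?_).trans ?_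
  · have e1 : B.toRight = B'.toRight := compl_injective (congrArg Prod.fst h)
    have e2 : B.toLeft = B'.toLeft := congrArg Prod.snd h
    rw [← Finset.toLeft_disjSum_toRight (u := B), e1, e2, Finset.toLeft_disjSum_toRight]
  · refine (onPath_of_mem hB).scale hp (fun i j => ?_) (fun i => ?_) fun j => ?_
    · simp only [dA, μ, id, Matrix.add_apply, Matrix.smul_apply, Matrix.of_apply, smul_eq_mul,
        Sum.elim_inl]
      field_simp
    · simp only [db, μ, id, Pi.add_apply, Pi.smul_apply, smul_eq_mul, Sum.elim_inl, Sum.elim_inr]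
      field_simp
    · simp only [dc, μ, id, Pi.add_apply, Pi.smul_apply, smul_eq_mul, Sum.elim_inr]
      field_simp
  · refine le_trans (Finset.sum_le_sum fun p _ => hpres.measure_preimage_le _)
      (gauss_sum μ hμ (v := v) ?_ hM (by simp only [Fintype.card_fin]; linarith) ?_)
    · show σ ^ 2 ≤ 1
      nlinarith
    · show 1 ≤ σ ^ 2 * ((m : ℝ) + n + 1 / σ) ^ 2
      rw [← mul_pow]
      refine one_le_pow₀ ?_
      have : σ * (1 / σ) = 1 := by field_simp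
      nlinarith

end Pool.Agent.H780Z.SD
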