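import Pool.Agent.H780Z.SD.Meas

set_option autoImplicit false

/-! The three properties of Gaussian laws that the analysis uses. -/

namespace Pool.Agent.H780Z.SD

open MeasureTheory ProbabilityTheory Set
open scoped ENNReal NNReal

lemma gauss_qi {μ : ℝ} (hμ : |μ| ≤ 1) {v : ℝ≥0} (hv : v ≠ 0) {D δ : ℝ} :
    QI (gaussianReal μ v) D δ (ENNReal.ofReal (Real.exp (δ * (δ + 2 * (D + 1)) / (2 * v)))) := by
  intro α c hα G hG
  set K := ENNReal.ofReal (Real.exp (δ * (δ + 2 * (D + 1)) / (2 * v))) with hK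
  have hv0 : (0 : ℝ) < v := by positivity
  rw [gaussianReal_apply μ hv, gaussianReal_apply μ hv, ← lintegral_indicator hG]
  set f : ℝ → ℝ≥0∞ := G.indicator (gaussianPDF μ v) with hf
  have hfm : Measurable f := (measurable_gaussianPDF μ v).indicator hG
  have e1 : ∫⁻ x, f (α * x + c) ≤ ∫⁻ x, f x := by
    have h1 : ∫⁻ x, f (α * x + c) = ∫⁻ y, f (y + c) ∂(Measure.map (α * ·) volume) :=
      (lintegral_map (f := fun y => f (y + c)) (hfm.comp (measurable_add_const c))
        (measurable_const_mul α)).symm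
    rw [h1, Real.map_volume_mul_left (by linarith), lintegral_smul_measure,
      lintegral_add_right_eq_self, smul_eq_mul]
    refine mul_le_of_le_one_left (by simp) ?_
    rw [ENNReal.ofReal_le_one, abs_of_nonneg (by positivity)]
    exact inv_le_one_of_one_le₀ hα
  have hm : Measurable fun x => f (α * x + c) := hfm.comp (by fun_prop)
  refine le_trans ?_ (mul_le_mul_right e1 K)
  rw [← lintegral_const_mul _ hm]
  have hS : MeasurableSet {x | |x| ≤ D ∧ |α * x + c - x| ≤ δ ∧ α * x + c ∈ G} := by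
    refine (measurableSet_le measurable_abs measurable_const).inter
      ((measurableSet_le (f := fun x : ℝ => |α * x + c - x|) (by fun_prop)
        measurable_const).inter ?_)
    exact (by fun_prop : Measurable fun x : ℝ => α * x + c) hG
  rw [← lintegral_indicator hS]
  refine lintegral_mono fun x => ?_
  by_cases hx : x ∈ {x | |x| ≤ D ∧ |α * x + c - x| ≤ δ ∧ α * x + c ∈ G}
  · rw [indicator_of_mem hx]
    obtain ⟨h1, h2, h3⟩ := hx
    rw [hf, indicator_of_mem h3, hK, gaussianPDF, gaussianPDF,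
      ← ENNReal.ofReal_mul (Real.exp_pos _).le]
    refine ENNReal.ofReal_le_ofReal ?_
    unfold gaussianPDFReal
    rw [mul_left_comm, ← Real.exp_add]
    refine mul_le_mul_of_nonneg_left (Real.exp_le_exp.mpr ?_) (by positivity)
    rw [← add_div, div_le_div_iff_of_pos_right (by positivity)]
    set u := α * x + c - x with hu
    have e : α * x + c - μ = u + (x - μ) := by rw [hu]; ring
    rw [e]
    have f1 : |x - μ| ≤ D + 1 := (abs_sub _ _).trans (by linarith)
    have f2 : u * (u + 2 * (x - μ)) ≤ δ * (δ + 2 * (D + 1)) := by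
      refine (le_abs_self _).trans ?_
      rw [abs_mul]
      refine mul_le_mul h2 ((abs_add_le _ _).trans ?_) (abs_nonneg _) ((abs_nonneg _).trans h2)
      rw [abs_mul, abs_two]
      linarith
    nlinarith
  · rw [indicator_of_notMem hx]
    exact zero_le

lemma gauss_ac (μ : ℝ) {v : ℝ≥0} {M : ℝ} (hM : 0 < M) (hv : 1 ≤ v * M ^ 2) (a ε : ℝ) :
    gaussianReal μ v (Icc (a - ε) (a + ε)) ≤ ENNReal.ofReal (M * (2 * ε)) := by
  have hv0 : (0 : ℝ) < v := by
    by_contra h
    have : (v : ℝ) = 0 := le_antisymm (not_lt.mp h) v.2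
    rw [this] at hv
    linarith
  have hv1 : v ≠ 0 := by
    intro h
    rw [h] at hv0
    simp at hv0
  rw [gaussianReal_apply μ hv1]
  refine le_trans (setLIntegral_mono (g := fun _ => ENNReal.ofReal M) measurable_const
    fun x _ => ?_) ?_
  · refine ENNReal.ofReal_le_ofReal ?_
    unfold gaussianPDFReal
    have h1 : Real.exp (-(x - μ) ^ 2 / (2 * v)) ≤ 1 := by
      rw [Real.exp_le_one_iff]
      exact div_nonpos_of_nonpos_of_nonneg (by nlinarith [sq_nonneg (x - μ)]) (by positivity)
    have h2 : (√(2 * Real.pi * v))⁻¹ ≤ M := by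
      rw [inv_le_comm₀ (by positivity) hM]
      refine Real.le_sqrt_of_sq_le ?_
      rw [inv_pow, inv_le_iff_one_le_mul₀ (by positivity)]
      have := Real.pi_gt_three
      nlinarith
    calc _ ≤ M * 1 := mul_le_mul h2 h1 (Real.exp_pos _).le hM.le
      _ = M := mul_one M
  · rw [setLIntegral_const, Real.volume_Icc, ← ENNReal.ofReal_mul hM.le]
    exact le_of_eq (by congr 2; ring)

lemma gauss_tail {μ : ℝ} (hμ : |μ| ≤ 1) {v : ℝ≥0} (hv : (v : ℝ) ≤ 1) (D : ℝ) :
    gaussianReal μ v {x | D < |x|} ≤ ENNReal.ofReal (2 * Real.exp (2 - D)) := by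
  have h1 := measure_ge_le_exp_mul_mgf (μ := gaussianReal μ v) (X := id) (t := 1) D zero_le_one
    (integrable_exp_mul_gaussianReal 1)
  have h2 := measure_le_le_exp_mul_mgf (μ := gaussianReal μ v) (X := id) (t := -1) (-D)
    (by norm_num) (integrable_exp_mul_gaussianReal (-1))
  rw [mgf_id_gaussianReal, ← Real.exp_add] at h1 h2
  have h3 := abs_le.mp hμ
  have e1 := h1.trans (Real.exp_le_exp.mpr (by linarith : _ ≤ 2 - D))
  have e2 := h2.trans (Real.exp_le_exp.mpr (by linarith : _ ≤ 2 - D))
  refine le_trans (measure_mono (t := {x | D ≤ id x} ∪ {x | id x ≤ -D}) fun x hx => ?_)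
    ((measure_union_le _ _).trans ?_)
  · rcases lt_abs.mp (show D < |x| from hx) with h | h
    · exact Or.inl h.le
    · exact Or.inr (show x ≤ -D by linarith)
  · rw [two_mul, ENNReal.ofReal_add (Real.exp_pos _).le (Real.exp_pos _).le]
    refine add_le_add ?_ ?_
    · rw [← ofReal_measureReal]
      exact ENNReal.ofReal_le_ofReal e1
    · rw [← ofReal_measureReal]
      exact ENNReal.ofReal_le_ofReal e2

end Pool.Agent.H780Z.SD
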