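import Pool.Agent.H780Z.SD.Main
import Pool.Agent.H780Z.SD.Gauss

set_option autoImplicit false
set_option linter.unusedSectionVars false

/-! Bases of the program in standard form give patterns; the numerical constants. -/

namespace Pool.Agent.H780Z.SD

open MeasureTheory ProbabilityTheory Function Finset
open scoped ENNReal NNReal

variable {m n : Type*} [Fintype m] [Fintype n] [DecidableEq m] [DecidableEq n]

lemma basis_props (A : m → n → ℝ) (B : Finset (n ⊕ m)) (hc : B.card = Fintype.card m)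
    (col : n ⊕ m → m → ℝ) (h1 : ∀ j i, col (Sum.inl j) i = A i j)
    (h2 : ∀ k i, col (Sum.inr k) i = if i = k then 1 else 0)
    (hli : LinearIndependent ℝ fun q : B => col q.1) :
    (B.toRightᶜ).card = B.toLeft.card ∧ (Inj A B.toRightᶜ B.toLeft ∧ Sur A B.toRightᶜ B.toLeft) ∧
      Inj (fun j i => -A i j) B.toLeft B.toRightᶜ ∧ Sur (fun j i => -A i j) B.toLeft B.toRightᶜ := by
  have hr : Module.finrank ℝ (B → ℝ) = Module.finrank ℝ (m → ℝ) := by simp [hc]
  let Mx : Matrix m B ℝ := Matrix.of fun i q => col q.1 i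
  have p1 : Injective Mx.mulVecLin := Matrix.mulVec_injective_iff.mpr hli
  have p2 : Surjective Mx.mulVecLin :=
    (LinearMap.injective_iff_surjective_of_finrank_eq_finrank hr).mp p1
  have p3 : Injective Mx.vecMulLinear := by
    rw [← LinearMap.ker_eq_bot, LinearMap.ker_eq_bot']
    intro y hy
    obtain ⟨g, hg⟩ := p2 y
    have : y ⬝ᵥ y = 0 := by
      nth_rewrite 2 [← hg]
      rw [Matrix.mulVecLin_apply, Matrix.dotProduct_mulVec]
      rw [Matrix.vecMulLinear_apply] at hy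
      rw [hy, zero_dotProduct]
    exact dotProduct_self_eq_zero.mp this
  have p4 : Surjective Mx.vecMulLinear :=
    (LinearMap.injective_iff_surjective_of_finrank_eq_finrank hr.symm).mp p3
  have v1 : ∀ (y : m → ℝ) j (h : Sum.inl j ∈ B),
      Mx.vecMulLinear y ⟨_, h⟩ = ∑ i, A i j * y i := fun y j h => by
    simp only [Matrix.vecMulLinear_apply, Matrix.vecMul, dotProduct, Mx, Matrix.of_apply, h1]
    exact sum_congr rfl fun i _ => mul_comm _ _
  have v2 : ∀ (y : m → ℝ) k (h : Sum.inr k ∈ B), Mx.vecMulLinear y ⟨_, h⟩ = y k := fun y k h => by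
    simp [Matrix.vecMul, dotProduct, Mx, h2]
  have v3 : ∀ (G : n ⊕ m → ℝ), (∀ q, q ∉ B → G q = 0) → ∀ i,
      Mx.mulVecLin (fun q => G q.1) i = ∑ j, A i j * G (Sum.inl j) + G (Sum.inr i) := by
    intro G hG i
    simp only [Matrix.mulVecLin_apply, Matrix.mulVec, dotProduct, Mx, Matrix.of_apply]
    rw [sum_coe_sort B fun q => col q i * G q,
      sum_subset (subset_univ B) fun q _ hq => by rw [hG q hq, mul_zero], Fintype.sum_sum_type]
    simp [h1, h2]
  refine ⟨?_, ⟨fun y a1 a2 => p3 ?_, fun r => ?_⟩, fun x a1 a2 => ?_, fun r => ?_⟩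
  · have := card_toLeft_add_card_toRight (u := B)
    have := card_le_univ B.toRight
    rw [card_compl]
    omega
  · rw [map_zero]
    ext ⟨q, hq⟩
    cases q with
    | inl j => rw [v1]; exact a2 j (mem_toLeft.mpr hq)
    | inr k => rw [v2]; exact a1 k (by simpa using hq)
  · obtain ⟨y, hy⟩ := p4 fun q => Sum.elim r 0 q.1
    refine ⟨y, fun i hi => ?_, fun j hj => ?_⟩
    · have hi' : Sum.inr i ∈ B := by simpa using hi
      rw [← v2 y i hi', hy]; rfl
    · rw [← v1 y j (mem_toLeft.mp hj), hy]; rfl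
  · have hG : ∀ q, q ∉ B → Sum.elim x (fun i => ∑ j, -A i j * x j) q = 0 := by
      rintro (j | i) hq
      · exact a1 j (by simpa using hq)
      · exact a2 i (by simpa using hq)
    have h0 : (fun q : B => Sum.elim x (fun i => ∑ j, -A i j * x j) q.1) = 0 := p1 (by
      rw [map_zero]
      ext i
      rw [v3 _ hG]
      simp)
    ext j
    by_cases hj : Sum.inl j ∈ B
    · exact congrFun h0 ⟨_, hj⟩
    · exact a1 j (by simpa using hj)
  · obtain ⟨g, hg⟩ := p2 (-r)
    let G : n ⊕ m → ℝ := fun q => if h : q ∈ B then g ⟨q, h⟩ else 0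
    have hG : ∀ q, q ∉ B → G q = 0 := fun q hq => dif_neg hq
    have e : (fun q : B => G q.1) = g := funext fun q => dif_pos q.2
    refine ⟨fun j => G (Sum.inl j), fun j hj => hG _ (by simpa using hj), fun i hi => ?_⟩
    have := v3 G hG i
    rw [e, hg, hG (Sum.inr i) (by simpa using hi)] at this
    simp only [neg_mul, sum_neg_distrib]
    simp only [Pi.neg_apply] at this
    linarith

lemma Inj.scale {A A' : m → n → ℝ} {I : Finset m} {J : Finset n} {F : ℝ} (h : Inj A I J)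
    (hA : ∀ i j, A i j = F * A' i j) : Inj A' I J := fun y a1 a2 => h y a1 fun j hj => by
  simp only [hA, mul_assoc, ← mul_sum, a2 j hj, mul_zero]

lemma Sur.scale {A A' : m → n → ℝ} {I : Finset m} {J : Finset n} {F : ℝ} (h : Sur A I J)
    (hA : ∀ i j, A i j = F * A' i j) : Sur A' I J := fun r => by
  obtain ⟨y, a1, a2⟩ := h r
  refine ⟨fun i => F * y i, fun i hi => by simp [a1 i hi], fun j hj => ?_⟩
  rw [← a2 j hj]
  exact sum_congr rfl fun i _ => by rw [hA]; ring

lemma OnPath.scale {A A' : m → n → ℝ} {b b' : m → ℝ} {c c' : n → ℝ} {I : Finset m} {J : Finset n}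
    {F : ℝ} (hF : 0 < F) (h : OnPath A b c I J) (hA : ∀ i j, A i j = F * A' i j)
    (hb : ∀ i, b i = F * b' i) (hc : ∀ j, c j = F * c' j) : OnPath A' b' c' I J := by
  obtain ⟨a1, ⟨a2, a3⟩, ⟨a4, a5⟩, t, x, w, y, z, h⟩ := h
  refine ⟨a1, ⟨a2.scale hA, a3.scale hA⟩, ⟨a4.scale (F := F) fun j i => by rw [hA]; ring,
    a5.scale (F := F) fun j i => by rw [hA]; ring⟩, t / F, x, fun i => w i / F, y,
    fun j => z j / F, div_nonneg h.t0 hF.le, fun i => ?_, fun j => ?_, h.x0,
    fun i => div_nonneg (h.w0 i) hF.le, h.y0, fun j => div_nonneg (h.z0 j) hF.le, h.xs,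
    fun i hi => by simp [h.ws i hi], h.ys, fun j hj => by simp [h.zs j hj]⟩
  · have := h.pr i
    simp only [hA, hb, mul_assoc, ← mul_sum] at this
    field_simp
    linarith
  · have := h.du j
    simp only [hA, hc, mul_assoc, ← mul_sum] at this
    field_simp
    linarith

lemma conv_real (p q r : ℕ) {x y k c : ℝ} (hx : 0 ≤ x) (hy : 0 ≤ y) (hk : 0 ≤ k) (hc : 0 ≤ c) :
    (1 + 2 ^ (p + q) * (r * ENNReal.ofReal x + 2 * (p * q * ENNReal.ofReal y)) +
      (q + 1) * ENNReal.ofReal k ^ (p + 1) * ((p + 1) * ENNReal.ofReal k ^ (q + 1)) *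
        ENNReal.ofReal c : ℝ≥0∞) =
      ENNReal.ofReal (1 + 2 ^ (p + q) * (r * x + 2 * (p * q * y)) +
        (q + 1) * k ^ (p + 1) * ((p + 1) * k ^ (q + 1)) * c) := by
  lift x to ℝ≥0 using hx
  lift y to ℝ≥0 using hy
  lift k to ℝ≥0 using hk
  lift c to ℝ≥0 using hc
  simp only [ENNReal.ofReal_coe_nnreal]
  have : ((1 + 2 ^ (p + q) * (r * x + 2 * (p * q * y)) +
      (q + 1) * k ^ (p + 1) * ((p + 1) * k ^ (q + 1)) * c : ℝ≥0) : ℝ) =
      1 + 2 ^ (p + q) * (r * x + 2 * (p * q * y)) +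
        (q + 1) * k ^ (p + 1) * ((p + 1) * k ^ (q + 1)) * c := by push_cast; rfl
  rw [← this, ENNReal.ofReal_coe_nnreal]
  push_cast
  rfl

theorem gauss_sum (μ : Lab m n → ℝ) (hμ : ∀ e, |μ e| ≤ 1) {v : ℝ≥0} (hv1 : (v : ℝ) ≤ 1) {M : ℝ}
    (hM : 1 ≤ M) (hmn : (Fintype.card m : ℝ) + Fintype.card n ≤ M) (hv : 1 ≤ v * M ^ 2) :
    ∑ p : Finset m × Finset n, Measure.pi (fun e => gaussianReal (μ e) v)
      {ω | OnPath (dA 1 id ω) (db 1 id ω) (dc 1 id ω) p.1 p.2} ≤
      ENNReal.ofReal (10 ^ 10 * M ^ 17) := by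
  set a : ℝ := (Fintype.card m : ℝ) with ha
  set b : ℝ := (Fintype.card n : ℝ) with hb
  have ha0 : 0 ≤ a := Nat.cast_nonneg _
  have hb0 : 0 ≤ b := Nat.cast_nonneg _
  have hM0 : 0 < M := by linarith
  have hv0 : (0 : ℝ) < v := by
    by_contra h
    have : (v : ℝ) = 0 := le_antisymm (not_lt.mp h) v.2
    rw [this] at hv
    linarith
  have hvne : v ≠ 0 := by
    intro h
    rw [h] at hv0
    simp at hv0
  have pw : ∀ k l : ℕ, k ≤ l → M ^ k ≤ M ^ l := fun k l h => pow_le_pow_right₀ hM h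
  set δ : ℝ := 1 / (21 * M ^ 4) with hδ
  set η : ℝ := 1 / (1000 * M ^ 6) with hη
  set Φ : ℝ := Real.exp (12 * M) with hΦ
  have hδ0 : 0 < δ := by positivity
  have hη0 : 0 < η := by positivity
  have hΦ0 : 0 < Φ := Real.exp_pos _
  have eδ : δ * M ^ 4 = 1 / 21 := by rw [hδ]; field_simp
  have eη : η * M ^ 6 = 1 / 1000 := by rw [hη]; field_simp
  have hδ1 : δ ≤ 1 / 21 := by nlinarith [one_le_pow₀ hM (n := 4)]
  have hηM : η * M ≤ 1 / 1000 := by
    have := pw 1 6 (by norm_num)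
    rw [pow_one] at this
    nlinarith
  have hηδ : 44 * (η * M ^ 2) ≤ δ := by
    have : η * M ^ 2 = 21 / 1000 * δ := by rw [hδ, hη]; field_simp
    linarith
  have hΦ1 : 1 ≤ Φ := Real.one_le_exp (by linarith)
  have hMe : M ≤ Real.exp M := by linarith [Real.add_one_le_exp M]
  have h2e : (2 : ℝ) ≤ Real.exp 1 := by linarith [Real.add_one_le_exp (1 : ℝ)]
  set κ : ℝ := δ * (δ + 2 * (4 * M + δ + 1)) / (2 * v) with hκ
  have hκ0 : 0 ≤ κ := by positivity
  have hκ1 : κ * (3 * M) ≤ 1 := by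
    have e1 : δ * (δ + 2 * (4 * M + δ + 1)) ≤ δ * (13 * M) := by gcongr; linarith
    have e2 : κ ≤ δ * (13 * M) * M ^ 2 / 2 := by
      rw [hκ, div_le_div_iff₀ (by positivity) (by norm_num)]
      have : δ * (13 * M) * 1 ≤ δ * (13 * M) * (v * M ^ 2) := by gcongr
      nlinarith
    have e3 : δ * (13 * M) * M ^ 2 / 2 * (3 * M) = 39 / 2 * (δ * M ^ 4) := by ring
    have := mul_le_mul_of_nonneg_right e2 (by positivity : 0 ≤ 3 * M)
    linarith
  have key := sum_path (fun e => gaussianReal (μ e) v) (D := 4 * M) (δ := δ) (η := η) (Φ := Φ)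
    (K := ENNReal.ofReal (Real.exp κ)) (K' := ENNReal.ofReal (32 * M ^ 3 / Φ))
    (τ := ENNReal.ofReal (2 * Real.exp (2 - 4 * M))) (lab := id) (fun e => gauss_qi (hμ e) hvne)
    (ENNReal.one_le_ofReal.mpr (Real.one_le_exp hκ0)) injective_id (by positivity) hη0
    (by nlinarith) (by nlinarith) (by nlinarith)
    (by
      have : 2 * b * (4 * M) + 1 ≤ 11 * M ^ 2 := by nlinarith
      nlinarith)
    (by
      have : 2 * a * (4 * M + δ) + 1 ≤ 11 * M ^ 2 := by nlinarith
      nlinarith) hΦ1 (fun e => gauss_tail (hμ e) hv1 _)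
    (fun e x => (gauss_ac _ hM0 hv x _).trans (ENNReal.ofReal_le_ofReal (by
      have : M * (2 * (2 * (2 * a * (4 * M) / Φ))) = 32 * (M ^ 2 * a) / Φ := by ring
      rw [this]
      gcongr
      nlinarith [sq_nonneg M])))
    (fun e x => (gauss_ac _ hM0 hv x _).trans (ENNReal.ofReal_le_ofReal (by
      have : M * (2 * (2 * (2 * b * (4 * M) / Φ))) = 32 * (M ^ 2 * b) / Φ := by ring
      rw [this]
      gcongr
      nlinarith [sq_nonneg M])))
  refine key.trans ?_
  set cnt : ℝ := Real.log ((a + b + 1) * (2 * (2 * Φ))) /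
    (η ^ 2 / ((4 * M + δ + δ) * (a + b + 1))) + 1 with hcnt
  have hcnt1 : cnt ≤ 250000000 * M ^ 15 := by
    have e1 : Real.log ((a + b + 1) * (2 * (2 * Φ))) ≤ 20 * M := by
      rw [show (a + b + 1) * (2 * (2 * Φ)) = (4 * (a + b + 1)) * Φ by ring,
        Real.log_mul (by positivity) hΦ0.ne', hΦ, Real.log_exp]
      have := Real.log_le_sub_one_of_pos (by positivity : 0 < 4 * (a + b + 1))
      linarith
    have e2 : (4 * M + δ + δ) * (a + b + 1) ≤ 6 * M * (2 * M) := by gcongr <;> linarith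
    have e3 : Real.log ((a + b + 1) * (2 * (2 * Φ))) /
        (η ^ 2 / ((4 * M + δ + δ) * (a + b + 1))) ≤ 20 * M / (η ^ 2 / (6 * M * (2 * M))) := by
      gcongr
    have e4 : 20 * M / (η ^ 2 / (6 * M * (2 * M))) = 240000000 * M ^ 15 := by
      rw [hη]; field_simp; norm_num
    have := one_le_pow₀ hM (n := 15)
    linarith
  have hcnt0 : 0 ≤ cnt := by
    have : 0 ≤ Real.log ((a + b + 1) * (2 * (2 * Φ))) := Real.log_nonneg (by nlinarith)
    positivity
  have c1 : (Fintype.card (Lab m n) : ℝ) ≤ Real.exp M := by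
    have e1 : (Fintype.card (Lab m n) : ℝ) = a * b + (a + b) := by simp [ha, hb]
    have e2 : (a + 1) * (b + 1) ≤ Real.exp a * Real.exp b :=
      mul_le_mul (Real.add_one_le_exp a) (Real.add_one_le_exp b) (by positivity) (Real.exp_pos _).le
    rw [← Real.exp_add] at e2
    have := Real.exp_le_exp.mpr hmn
    nlinarith
  have c2 : (2 : ℝ) ^ (Fintype.card m + Fintype.card n) ≤ Real.exp M := by
    refine (pow_le_pow_left₀ (by norm_num) h2e _).trans ?_
    rw [← Real.exp_nat_mul, mul_one, Nat.cast_add]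
    exact Real.exp_le_exp.mpr hmn
  have c3 : Real.exp M * (Real.exp M * (2 * Real.exp (2 - 4 * M))) ≤ 2 := by
    have : Real.exp M * (Real.exp M * (2 * Real.exp (2 - 4 * M))) =
        2 * Real.exp (M + (M + (2 - 4 * M))) := by rw [Real.exp_add, Real.exp_add M]; ring
    rw [this]
    have := Real.exp_le_one_iff.mpr (by linarith : M + (M + (2 - 4 * M)) ≤ 0)
    linarith
  have c4 : Real.exp M * (2 * (a * b * (32 * M ^ 3 / Φ))) ≤ 1 := by
    have e1 : a * b ≤ M ^ 2 := by nlinarith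
    have e2 : M ^ 5 ≤ Real.exp M ^ 5 := by gcongr
    have e3 : (64 : ℝ) ≤ Real.exp M ^ 6 := by
      have : (2 : ℝ) ^ 6 ≤ Real.exp M ^ 6 := by
        gcongr
        exact h2e.trans (Real.exp_le_exp.mpr hM)
      linarith
    have e4 : Φ = Real.exp M * (Real.exp M ^ 6 * Real.exp M ^ 5) := by
      rw [hΦ, show 12 * M = (12 : ℕ) * M by norm_num, Real.exp_nat_mul]; ring
    have e5 : Real.exp M * (2 * (a * b * (32 * M ^ 3 / Φ))) =
        Real.exp M * (64 * (a * b * M ^ 3)) / Φ := by ring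
    rw [e5, div_le_one hΦ0, e4]
    gcongr
    nlinarith [pow_pos hM0 3]
  have c5 : (b + 1) * Real.exp κ ^ (Fintype.card m + 1) *
      ((a + 1) * Real.exp κ ^ (Fintype.card n + 1)) ≤ 12 * M ^ 2 := by
    have e1 : Real.exp κ ^ (Fintype.card m + 1) * Real.exp κ ^ (Fintype.card n + 1) ≤ 3 := by
      rw [← pow_add, ← Real.exp_nat_mul]
      refine le_trans (Real.exp_le_exp.mpr ?_) Real.exp_one_lt_three.le
      push_cast
      nlinarith
    have e2 : (b + 1) * (a + 1) ≤ 2 * M * (2 * M) := by gcongr <;> linarith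
    calc _ = (b + 1) * (a + 1) *
          (Real.exp κ ^ (Fintype.card m + 1) * Real.exp κ ^ (Fintype.card n + 1)) := by ring
      _ ≤ 2 * M * (2 * M) * 3 := by gcongr
      _ = _ := by ring
  have fin : 1 + 2 ^ (Fintype.card m + Fintype.card n) *
      ((Fintype.card (Lab m n) : ℝ) * (2 * Real.exp (2 - 4 * M)) + 2 * (a * b * (32 * M ^ 3 / Φ))) +
      (b + 1) * Real.exp κ ^ (Fintype.card m + 1) *
        ((a + 1) * Real.exp κ ^ (Fintype.card n + 1)) * cnt ≤ 10 ^ 10 * M ^ 17 := by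
    have e1 : (2 : ℝ) ^ (Fintype.card m + Fintype.card n) *
        ((Fintype.card (Lab m n) : ℝ) * (2 * Real.exp (2 - 4 * M)) +
          2 * (a * b * (32 * M ^ 3 / Φ))) ≤
        Real.exp M * (Real.exp M * (2 * Real.exp (2 - 4 * M)) +
          2 * (a * b * (32 * M ^ 3 / Φ))) := by gcongr
    have e2 : (b + 1) * Real.exp κ ^ (Fintype.card m + 1) *
        ((a + 1) * Real.exp κ ^ (Fintype.card n + 1)) * cnt ≤ 12 * M ^ 2 * (250000000 * M ^ 15) := by
      gcongr
    have e3 := one_le_pow₀ hM (n := 17)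
    have e4 : 12 * M ^ 2 * (250000000 * M ^ 15) = 3000000000 * M ^ 17 := by ring
    rw [mul_add] at e1
    linarith
  exact le_trans (le_of_eq (conv_real _ _ _ (by positivity) (by positivity) (by positivity) hcnt0))
    (ENNReal.ofReal_le_ofReal fin)

end Pool.Agent.H780Z.SD
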