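import Pool.Agent.H780Z.SD.Prob

set_option autoImplicit false
set_option linter.unusedSectionVars false

/-! The expected number of patterns on the parametric path, for abstract product measures. -/

namespace Pool.Agent.H780Z.SD

open MeasureTheory Function Finset
open scoped ENNReal

variable {ι : Type*} [Fintype ι] [DecidableEq ι]
variable {m n : Type*} [Fintype m] [Fintype n] [DecidableEq m] [DecidableEq n]

lemma cl_and {X : Type*} [TopologicalSpace X] {p q : X → Prop} (hp : IsClosed {x | p x})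
    (hq : IsClosed {x | q x}) : IsClosed {x | p x ∧ q x} := hp.inter hq

lemma cl_all {X : Type*} {κ : Sort*} [TopologicalSpace X] {p : κ → X → Prop}
    (hp : ∀ k, IsClosed {x | p k x}) : IsClosed {x | ∀ k, p k x} := by
  rw [Set.setOf_forall]
  exact isClosed_iInter hp

lemma meas_near (ε s : ℝ) (lab : Lab m n → ι) (I : Finset m) (J : Finset n) (i₀ : m) (j₀ : n) :
    MeasurableSet {ω : ι → ℝ | Near ε (dA s lab ω) I J i₀ j₀} := by
  unfold Near dA
  refine meas_exists (cl_and (isClosed_eq (by fun_prop) (by fun_prop))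
    (cl_and (cl_all fun i => cl_all fun _ => isClosed_eq (by fun_prop) (by fun_prop))
    (cl_and (cl_all fun j => cl_all fun _ => cl_all fun _ =>
      isClosed_eq (by fun_prop) (by fun_prop)) (isClosed_le (by fun_prop) (by fun_prop)))))

lemma meas_inj (s : ℝ) (lab : Lab m n → ι) (I : Finset m) (J : Finset n) :
    MeasurableSet {ω : ι → ℝ | Inj (dA s lab ω) I J} := by
  have : {ω : ι → ℝ | Inj (dA s lab ω) I J} = (⋃ i₀ : m, {ω : ι → ℝ | ∃ y : m → ℝ, y i₀ = 1 ∧
      (∀ i, i ∉ I → y i = 0) ∧ ∀ j ∈ J, ∑ i, dA s lab ω i j * y i = 0})ᶜ := by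
    ext ω
    simp only [Set.mem_setOf_eq, Set.mem_compl_iff, Set.mem_iUnion, not_exists]
    constructor
    · rintro h i₀ y ⟨h1, h2, h3⟩
      rw [h y h2 h3] at h1
      simp at h1
    · intro h y h2 h3
      ext i₀
      by_contra hne
      refine h i₀ (fun i => y i / y i₀) ⟨div_self hne, fun i hi => by simp [h2 i hi],
        fun j hj => ?_⟩
      have : ∑ i, dA s lab ω i j * (y i / y i₀) = (∑ i, dA s lab ω i j * y i) / y i₀ := by
        rw [sum_div]; exact sum_congr rfl fun i _ => by ring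
      rw [this, h3 j hj, zero_div]
  rw [this]
  refine (MeasurableSet.iUnion fun i₀ => ?_).compl
  unfold dA
  exact meas_exists (cl_and (isClosed_eq (by fun_prop) (by fun_prop))
    (cl_and (cl_all fun i => cl_all fun _ => isClosed_eq (by fun_prop) (by fun_prop))
    (cl_all fun j => cl_all fun _ => isClosed_eq (by fun_prop) (by fun_prop))))

theorem tail (ν : ι → Measure ℝ) [∀ e, IsProbabilityMeasure (ν e)] {D Φ s : ℝ} {K : ℝ≥0∞}
    (hν : ∀ e (a : ℝ), ν e (Set.Icc (a - 2 * (2 * Fintype.card m * D / Φ))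
      (a + 2 * (2 * Fintype.card m * D / Φ))) ≤ K) (hs : |s| = 1) {lab : Lab m n → ι}
    (hl : Injective lab) (hΦ : 0 < Φ) (I : Finset m) (J : Finset n) :
    Measure.pi ν ({ω | Inj (dA s lab ω) I J ∧ Sur (dA s lab ω) I J} ∩
      Ev s lab I J D (fun x _ => ∃ j, Φ < x j) fun _ _ => True) ≤
      Fintype.card m * Fintype.card n * K := by
  have h1 : ∀ p : m × n, Measure.pi ν ({ω | Inj (dA s lab ω) I J} ∩
      {ω | Near (2 * Fintype.card m * D / Φ) (dA s lab ω) I J p.1 p.2}) ≤ K := by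
    intro p
    refine small_fiber ν (lab (Sum.inl p)) (hν _)
      ((meas_inj s lab I J).inter (meas_near _ s lab I J p.1 p.2)) ?_
    rintro ω a a' ⟨h1, h2⟩ ⟨-, h3⟩
    have := Near.fiber h1 h2 h3 fun i j hij => by
      have : lab (Sum.inl (i, j)) ≠ lab (Sum.inl p) := hl.ne (by simpa using hij)
      simp only [dA, update_of_ne this]
    simp only [dA, update_self] at this
    rwa [← mul_sub, abs_mul, hs, one_mul] at this
  refine le_trans (measure_mono (t := ⋃ p : m × n, {ω | Inj (dA s lab ω) I J} ∩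
      {ω | Near (2 * Fintype.card m * D / Φ) (dA s lab ω) I J p.1 p.2}) ?_)
    ((measure_iUnion_fintype_le _ _).trans
      ((sum_le_card_nsmul univ _ _ fun p _ => h1 p).trans (le_of_eq ?_)))
  · rintro ω ⟨⟨a1, a2⟩, hb, t, x, w, y, z, h, ⟨j, hj⟩, -⟩
    obtain ⟨i₀, j₀, hn⟩ := h.near a2 hΦ (D := D)
      (fun i => by rw [db, abs_mul, hs, one_mul]; exact hb _)
      (fun i => by rw [dc, abs_mul, hs, one_mul]; exact hb _) hj
    exact Set.mem_iUnion.mpr ⟨(i₀, j₀), a1, hn⟩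
  · rw [card_univ, Fintype.card_prod, nsmul_eq_mul, Nat.cast_mul]

lemma meas_good (η Φ D s : ℝ) (lab : Lab m n → ι) (I : Finset m) (J : Finset n) :
    MeasurableSet (Ev s lab I J D (Good η Φ I J) (Good η Φ J I)) := by
  have : Ev s lab I J D (Good η Φ I J) (Good η Φ J I) = {ω : ι → ℝ |
      ∃ q : (ℝ × ℝ × ℝ) × ((n → ℝ) × (m → ℝ)) × (m → ℝ) × (n → ℝ),
        (∀ e, |ω e| ≤ D) ∧ 0 ≤ q.1.1 ∧
        (∀ i, ∑ j, dA s lab ω i j * q.2.1.1 j + q.2.1.2 i = db s lab ω i + q.1.1) ∧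
        (∀ j, ∑ i, dA s lab ω i j * q.2.2.1 i - q.2.2.2 j = dc s lab ω j - q.1.1) ∧
        (∀ j, 0 ≤ q.2.1.1 j) ∧ (∀ i, 0 ≤ q.2.1.2 i) ∧ (∀ i, 0 ≤ q.2.2.1 i) ∧ (∀ j, 0 ≤ q.2.2.2 j) ∧
        (∀ j, j ∉ J → q.2.1.1 j = 0) ∧ (∀ i ∈ I, q.2.1.2 i = 0) ∧
        (∀ i, i ∉ I → q.2.2.1 i = 0) ∧ (∀ j ∈ J, q.2.2.2 j = 0) ∧
        (1 ≤ q.1.2.1 ∧ q.1.2.1 ≤ Φ ∧ (∀ j, q.2.1.1 j ≤ q.1.2.1) ∧
          (∀ j ∈ J, η * q.1.2.1 ≤ q.2.1.1 j) ∧ ∀ i, i ∉ I → η * q.1.2.1 ≤ q.2.1.2 i) ∧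
        (1 ≤ q.1.2.2 ∧ q.1.2.2 ≤ Φ ∧ (∀ i, q.2.2.1 i ≤ q.1.2.2) ∧
          (∀ i ∈ I, η * q.1.2.2 ≤ q.2.2.1 i) ∧ ∀ j, j ∉ J → η * q.1.2.2 ≤ q.2.2.2 j)} := by
    ext ω
    constructor
    · rintro ⟨hb, t, x, w, y, z, h, ⟨X, hX⟩, Y, hY⟩
      exact ⟨((t, X, Y), (x, w), y, z), hb, h.t0, h.pr, h.du, h.x0, h.w0, h.y0, h.z0, h.xs, h.ws,
        h.ys, h.zs, hX, hY⟩
    · rintro ⟨⟨⟨t, X, Y⟩, ⟨x, w⟩, y, z⟩, hb, a1, a2, a3, a4, a5, a6, a7, a8, a9, a10, a11, hX, hY⟩
      exact ⟨hb, t, x, w, y, z, ⟨a1, a2, a3, a4, a5, a6, a7, a8, a9, a10, a11⟩, ⟨X, hX⟩, Y, hY⟩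
  rw [this]
  unfold dA db dc
  refine meas_exists ?_
  repeat' first
    | apply cl_and
    | (apply cl_all; intro _)
    | exact isClosed_le (by fun_prop) (by fun_prop)
    | exact isClosed_eq (by fun_prop) (by fun_prop)

lemma sum_meas_le {Ω β : Type*} [MeasurableSpace Ω] (P : Measure Ω) [IsProbabilityMeasure P]
    (S : Finset β) (G : β → Set Ω) (hG : ∀ p, MeasurableSet (G p)) (C : ℝ≥0∞)
    (h : ∀ ω (T : Finset β), T ⊆ S → (∀ p ∈ T, ω ∈ G p) → (T.card : ℝ≥0∞) ≤ C) :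
    ∑ p ∈ S, P (G p) ≤ C := by
  classical
  simp only [← lintegral_indicator_one (hG _)]
  rw [← lintegral_finsetSum _ fun p _ => measurable_one.indicator (hG p)]
  refine le_trans (lintegral_mono (g := fun _ => C) fun ω => ?_) (by simp)
  refine le_trans (le_of_eq ?_) (h ω (S.filter fun p => ω ∈ G p) (filter_subset _ _)
    fun p hp => (mem_filter.mp hp).2)
  simp only [Set.indicator_apply, Pi.one_apply, sum_boole]

/-- nonsingular pattern on the parametric path -/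
def OnPath (A : m → n → ℝ) (b : m → ℝ) (c : n → ℝ) (I : Finset m) (J : Finset n) : Prop :=
  I.card = J.card ∧ (Inj A I J ∧ Sur A I J) ∧
    (Inj (fun j i => -A i j) J I ∧ Sur (fun j i => -A i j) J I) ∧
    ∃ t x w y z, Sol A b c I J t x w y z

lemma QI.mono {ν : Measure ℝ} {D D' δ : ℝ} {K : ℝ≥0∞} (h : QI ν D' δ K) (hD : D ≤ D') :
    QI ν D δ K := fun α c hα G hG => by
  refine le_trans (measure_mono ?_) (h α c hα G hG)
  exact fun _ hx => ⟨hx.1.trans hD, hx.2⟩

theorem sum_path (ν : ι → Measure ℝ) [∀ e, IsProbabilityMeasure (ν e)] {D δ η Φ : ℝ}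
    {K K' τ : ℝ≥0∞} (hq : ∀ e, QI (ν e) (D + δ) δ K) (hK : 1 ≤ K) {lab : Lab m n → ι}
    (hl : Injective lab) (hD : 0 < D) (hη : 0 < η) (hη1 : η ≤ 1 / 4)
    (hηn : 2 * η * Fintype.card n ≤ 1 / 2) (hηm : 2 * η * Fintype.card m ≤ 1 / 2)
    (hδn : 4 * η * (2 * Fintype.card n * D + 1) ≤ δ)
    (hδm : 4 * η * (2 * Fintype.card m * (D + δ) + 1) ≤ δ) (hΦ : 1 ≤ Φ)
    (hτ : ∀ e, ν e {x | D < |x|} ≤ τ)
    (hνm : ∀ e (a : ℝ), ν e (Set.Icc (a - 2 * (2 * Fintype.card m * D / Φ))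
      (a + 2 * (2 * Fintype.card m * D / Φ))) ≤ K')
    (hνn : ∀ e (a : ℝ), ν e (Set.Icc (a - 2 * (2 * Fintype.card n * D / Φ))
      (a + 2 * (2 * Fintype.card n * D / Φ))) ≤ K') :
    ∑ p : Finset m × Finset n,
      Measure.pi ν {ω | OnPath (dA 1 lab ω) (db 1 lab ω) (dc 1 lab ω) p.1 p.2} ≤
      1 + 2 ^ (Fintype.card m + Fintype.card n) *
        (Fintype.card ι * τ + 2 * (Fintype.card m * Fintype.card n * K')) +
      (Fintype.card n + 1) * K ^ (Fintype.card m + 1) *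
        ((Fintype.card m + 1) * K ^ (Fintype.card n + 1)) * ENNReal.ofReal
        (Real.log ((Fintype.card m + Fintype.card n + 1) * (2 * (2 * Φ))) /
          (η ^ 2 / ((D + δ + δ) * (Fintype.card m + Fintype.card n + 1))) + 1) := by
  have hn0 : (0 : ℝ) ≤ Fintype.card n := Nat.cast_nonneg _
  have hδ0 : 0 ≤ δ := le_trans (by positivity) hδn
  have h1 : |(1 : ℝ)| = 1 := abs_one
  have h1' : |(-1 : ℝ)| = 1 := by simp
  have hl' : Injective (lab ∘ sw) := hl.comp sw_inj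
  set P := Measure.pi ν with hP
  set E : Finset m × Finset n → Set (ι → ℝ) :=
    fun p => {ω | OnPath (dA 1 lab ω) (db 1 lab ω) (dc 1 lab ω) p.1 p.2} with hE
  set G : Finset m × Finset n → Set (ι → ℝ) :=
    fun p => Ev 1 lab p.1 p.2 (D + δ + δ) (Good η (2 * Φ) p.1 p.2) (Good η (2 * Φ) p.2 p.1) with hG
  set a : ℝ≥0∞ := Fintype.card ι * τ + 2 * (Fintype.card m * Fintype.card n * K') with ha
  set k : ℝ≥0∞ := (Fintype.card n + 1) * K ^ (Fintype.card m + 1) *
        ((Fintype.card m + 1) * K ^ (Fintype.card n + 1)) with hk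
  have hbox : P {ω | ∃ e, D < |ω e|} ≤ Fintype.card ι * τ := by
    rw [Set.setOf_exists]
    refine (measure_iUnion_fintype_le _ _).trans
      ((sum_le_card_nsmul univ _ τ fun e _ => ?_).trans (by rw [card_univ, nsmul_eq_mul]))
    refine le_trans (le_of_eq ?_) (hτ e)
    exact (measurePreserving_eval ν e).measure_preimage
      (measurableSet_lt measurable_const measurable_abs).nullMeasurableSet
  have hone : ∀ p, P (E p) ≤ a + k * P (G p) := by
    rintro ⟨I, J⟩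
    have t1 := tail ν hνm h1 hl (by linarith) I J
    have t2 := tail ν hνn h1' hl' (by linarith) J I
    have i1 := improve ν (fun e => (hq e).mono (by linarith)) hK h1 hl hD.le hη.le hη1 hηn hδn hΦ
      I J (fun y _ => ∀ i, y i ≤ Φ)
    have i2 := improve ν hq hK h1' hl' (by linarith) hη.le hη1 hηm hδm hΦ J I
      (Good η (2 * Φ) I J)
    rw [← Ev_dual, ← Ev_dual] at i2
    rw [← Ev_dual] at t2
    have hsub : E (I, J) ⊆ ({ω | ∃ e, D < |ω e|} ∪
        (({ω | Inj (dA 1 lab ω) I J ∧ Sur (dA 1 lab ω) I J} ∩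
          Ev 1 lab I J D (fun x _ => ∃ j, Φ < x j) fun _ _ => True) ∪
        ({ω | Inj (dA (-1) (lab ∘ sw) ω) J I ∧ Sur (dA (-1) (lab ∘ sw) ω) J I} ∩
          Ev 1 lab I J D (fun _ _ => True) fun y _ => ∃ i, Φ < y i))) ∪
        Ev 1 lab I J D (fun x _ => ∀ j, x j ≤ Φ) fun y _ => ∀ i, y i ≤ Φ := by
      rintro ω ⟨-, b1, b2, t, x, w, y, z, h⟩
      by_cases c1 : ∃ e, D < |ω e|
      · exact Or.inl (Or.inl c1)
      push Not at c1
      by_cases c2 : ∃ j, Φ < x j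
      · exact Or.inl (Or.inr (Or.inl ⟨b1, c1, t, x, w, y, z, h, c2, trivial⟩))
      by_cases c3 : ∃ i, Φ < y i
      · refine Or.inl (Or.inr (Or.inr ⟨?_, c1, t, x, w, y, z, h, trivial, c3⟩))
        have : dA (-1) (lab ∘ sw) ω = fun j i => -dA 1 lab ω i j := by
          ext j i; simp [dA, sw]
        rw [Set.mem_setOf_eq, this]
        exact b2
      push Not at c2 c3
      exact Or.inr ⟨c1, t, x, w, y, z, h, c2, c3⟩
    refine (measure_mono hsub).trans ((measure_union_le _ _).trans (add_le_add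
      ((measure_union_le _ _).trans (add_le_add hbox ((measure_union_le _ _).trans ?_))) ?_))
    · rw [two_mul]
      refine add_le_add t1 (t2.trans (le_of_eq ?_))
      ring
    · refine i1.trans ?_
      rw [hk, mul_assoc _ _ (P (G (I, J)))]
      exact mul_le_mul_right i2 _
  set S : Finset (Finset m × Finset n) :=
    univ.filter fun p => p.1.card = p.2.card ∧ p.2.Nonempty with hS
  have hsplit : ∑ p, P (E p) ≤ 1 + ∑ p ∈ S, P (E p) := by
    rw [← sum_subset (subset_univ (insert (∅, ∅) S)) fun p _ hp => ?_]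
    · rw [sum_insert (by simp [hS])]
      exact add_le_add prob_le_one le_rfl
    · have : E p = ∅ := by
        ext ω
        simp only [Set.mem_empty_iff_false, iff_false]
        rintro ⟨hc, -⟩
        rcases p.2.eq_empty_or_nonempty with h0 | h0
        · refine hp (mem_insert.mpr (Or.inl (Prod.ext ?_ h0)))
          rw [h0] at hc
          exact card_eq_zero.mp hc
        · exact hp (mem_insert_of_mem (mem_filter.mpr ⟨mem_univ _, hc, h0⟩))
      rw [this, measure_empty]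
  refine hsplit.trans ?_
  rw [add_assoc]
  refine add_le_add le_rfl ((sum_le_sum fun p _ => hone p).trans ?_)
  rw [sum_add_distrib, ← mul_sum, sum_const, nsmul_eq_mul]
  refine add_le_add (mul_le_mul_left ?_ _) (mul_le_mul_right ?_ _)
  · have := card_le_univ S
    rw [Fintype.card_prod, Fintype.card_finset, Fintype.card_finset, ← pow_add] at this
    exact_mod_cast this
  · refine sum_meas_le P S G (fun p => meas_good _ _ _ _ _ _ _) _ fun ω T hT h => ?_
    rcases T.eq_empty_or_nonempty with rfl | ⟨p₀, hp₀⟩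
    · simp
    have hb := (h p₀ hp₀).1
    have := count_good (A := dA 1 lab ω) (b := db 1 lab ω) (c := dc 1 lab ω) hη
      (by linarith : 1 ≤ 2 * Φ) (by linarith : 0 < D + δ + δ)
      (fun i => by rw [db, one_mul]; exact hb _) (fun i => by rw [dc, one_mul]; exact hb _) T
      fun p hp => ⟨(mem_filter.mp (hT hp)).2.1, (mem_filter.mp (hT hp)).2.2, (h p hp).2⟩
    rw [← ENNReal.ofReal_natCast]
    exact ENNReal.ofReal_le_ofReal this

end Pool.Agent.H780Z.SD
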