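import Mathlib

set_option autoImplicit false

/-! Product measures: quasi-invariance under block affine maps, small fibres, projections. -/

namespace Pool.Agent.H780Z.SD

open MeasureTheory Set Function
open scoped ENNReal

variable {ι : Type*} [Fintype ι] [DecidableEq ι]

lemma pi_le_of_fiber (ν : ι → Measure ℝ) [∀ e, IsProbabilityMeasure (ν e)] (e : ι)
    {S G : Set (ι → ℝ)} (hS : MeasurableSet S) (hG : MeasurableSet G) (K : ℝ≥0∞)
    (h : ∀ ω : ι → ℝ, ν e {x | update ω e x ∈ S} ≤ K * ν e {x | update ω e x ∈ G}) :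
    Measure.pi ν S ≤ K * Measure.pi ν G := by
  have h1 := lintegral_le_of_lmarginal_le (μ := ν) {e} (f := S.indicator 1)
    (g := fun ω => K * G.indicator 1 ω) (measurable_one.indicator hS)
    ((measurable_one.indicator hG).const_mul K) (by
      rw [lmarginal_singleton, lmarginal_singleton]
      intro ω
      have e1 : ∀ T : Set (ι → ℝ), MeasurableSet T →
          ∫⁻ x, T.indicator (1 : (ι → ℝ) → ℝ≥0∞) (update ω e x) ∂ν e =
            ν e {x | update ω e x ∈ T} := fun T hT => by
        have hm : MeasurableSet {x | update ω e x ∈ T} := measurable_update ω hT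
        rw [← lintegral_indicator_one hm]
        rfl
      have hm : Measurable fun x => G.indicator (1 : (ι → ℝ) → ℝ≥0∞) (update ω e x) :=
        (measurable_one.indicator hG).comp (measurable_update ω)
      beta_reduce
      rw [lintegral_const_mul _ hm, e1 S hS, e1 G hG]
      exact h ω)
  rwa [lintegral_const_mul _ (measurable_one.indicator hG), lintegral_indicator_one hS,
    lintegral_indicator_one hG] at h1

/-- quasi-invariance of a measure on the line under small expanding affine maps -/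
def QI (ν : Measure ℝ) (D δ : ℝ) (K : ℝ≥0∞) : Prop :=
  ∀ α c : ℝ, 1 ≤ α → ∀ G : Set ℝ, MeasurableSet G →
    ν {x | |x| ≤ D ∧ |α * x + c - x| ≤ δ ∧ α * x + c ∈ G} ≤ K * ν G

lemma qi_one (ν : ι → Measure ℝ) [∀ e, IsProbabilityMeasure (ν e)] {D δ : ℝ} {K : ℝ≥0∞}
    (e : ι) (hq : QI (ν e) D δ K) {α : ℝ} (hα : 1 ≤ α) (g : (ι → ℝ) → ℝ) (hg : Measurable g)
    (hi : ∀ ω x, g (update ω e x) = g ω) (G : Set (ι → ℝ)) :
    Measure.pi ν {ω | |ω e| ≤ D ∧ |α * ω e + g ω - ω e| ≤ δ ∧ update ω e (α * ω e + g ω) ∈ G} ≤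
      K * Measure.pi ν G := by
  rw [← measure_toMeasurable G]
  set G' := toMeasurable (Measure.pi ν) G
  have hG' : MeasurableSet G' := measurableSet_toMeasurable _ _
  refine le_trans (measure_mono (t := {ω | |ω e| ≤ D ∧ |α * ω e + g ω - ω e| ≤ δ ∧
    update ω e (α * ω e + g ω) ∈ G'}) fun ω h => ⟨h.1, h.2.1, subset_toMeasurable _ _ h.2.2⟩) ?_
  have hm : Measurable fun ω : ι → ℝ => α * ω e + g ω :=
    ((measurable_pi_apply e).const_mul α).add hg
  refine pi_le_of_fiber ν e ?_ hG' K fun ω => ?_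
  · refine (measurableSet_le (measurable_pi_apply e).abs measurable_const).inter
      ((measurableSet_le (hm.sub (measurable_pi_apply e)).abs measurable_const).inter ?_)
    exact (measurable_update'.comp (measurable_id.prodMk hm)) hG'
  · have := hq α (g ω) hα _ (measurable_update ω hG' : MeasurableSet {x | update ω e x ∈ G'})
    refine le_trans (le_of_eq ?_) this
    congr 1
    ext x
    simp only [mem_setOf_eq, update_self, hi, update_idem, mem_preimage]

lemma qi_rel (ν : ι → Measure ℝ) [∀ e, IsProbabilityMeasure (ν e)] {D δ : ℝ} {K : ℝ≥0∞}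
    (hq : ∀ e, QI (ν e) D δ K) {κ : Type*} [DecidableEq κ] (lab : κ → ι) (hl : Injective lab)
    {α : ℝ} (hα : 1 ≤ α) (g : κ → (ι → ℝ) → ℝ) (hg : ∀ k, Measurable (g k))
    (hi : ∀ k k' ω x, g k (update ω (lab k') x) = g k ω) (G : Set (ι → ℝ)) (s : Finset κ) :
    Measure.pi ν {ω | (∀ k ∈ s, |ω (lab k)| ≤ D ∧ |α * ω (lab k) + g k ω - ω (lab k)| ≤ δ) ∧
      ∃ ω' ∈ G, (∀ k ∈ s, ω' (lab k) = α * ω (lab k) + g k ω) ∧
        ∀ e, (∀ k ∈ s, lab k ≠ e) → ω' e = ω e} ≤ K ^ s.card * Measure.pi ν G := by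
  induction s using Finset.induction_on with
  | empty =>
    simp only [Finset.card_empty, pow_zero, one_mul]
    refine measure_mono ?_
    rintro ω ⟨-, ω', h1, -, h2⟩
    have : ω' = ω := funext fun e => h2 e (by simp)
    rwa [← this]
  | insert k s hk ih =>
    rw [Finset.card_insert_of_notMem hk, pow_succ', mul_assoc]
    refine le_trans ?_ (mul_le_mul_right ih K)
    refine le_trans (measure_mono ?_) (qi_one ν (lab k) (hq _) hα (g k) (hg k) (hi k k) _)
    rintro ω ⟨h1, ω', h2, h3, h4⟩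
    have hne : ∀ k' ∈ s, lab k' ≠ lab k := fun k' hk' h => hk (hl h ▸ hk')
    refine ⟨(h1 k (Finset.mem_insert_self _ _)).1, (h1 k (Finset.mem_insert_self _ _)).2,
      fun k' hk' => ?_, ω', h2, fun k' hk' => ?_, fun e he => ?_⟩
    · rw [update_of_ne (hne k' hk'), hi]
      exact h1 k' (Finset.mem_insert_of_mem hk')
    · rw [update_of_ne (hne k' hk'), hi]
      exact h3 k' (Finset.mem_insert_of_mem hk')
    · by_cases hek : e = lab k
      · rw [hek, update_self]
        exact h3 k (Finset.mem_insert_self _ _)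
      · rw [update_of_ne hek]
        refine h4 e fun k' hk' => ?_
        rcases Finset.mem_insert.mp hk' with rfl | hk'
        · exact Ne.symm hek
        · exact he k' hk'

lemma qi_block (ν : ι → Measure ℝ) [∀ e, IsProbabilityMeasure (ν e)] {D δ : ℝ} {K : ℝ≥0∞}
    (hq : ∀ e, QI (ν e) D δ K) {κ : Type*} [Fintype κ] [DecidableEq κ] (lab : κ → ι)
    (hl : Injective lab)
    {α : ℝ} (hα : 1 ≤ α) (g : κ → (ι → ℝ) → ℝ) (hg : ∀ k, Measurable (g k))
    (hi : ∀ k k' ω x, g k (update ω (lab k') x) = g k ω) (S G : Set (ι → ℝ))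
    (h : ∀ ω ∈ S, (∀ k, |ω (lab k)| ≤ D ∧ |α * ω (lab k) + g k ω - ω (lab k)| ≤ δ) ∧
      ∀ ω', (∀ k, ω' (lab k) = α * ω (lab k) + g k ω) → (∀ e, (∀ k, lab k ≠ e) → ω' e = ω e) →
        ω' ∈ G) :
    Measure.pi ν S ≤ K ^ Fintype.card κ * Measure.pi ν G := by
  refine le_trans (measure_mono fun ω hω => ?_) (qi_rel ν hq lab hl hα g hg hi G Finset.univ)
  have e1 : ∀ k, extend lab (fun k => α * ω (lab k) + g k ω) ω (lab k) = α * ω (lab k) + g k ω :=
    fun k => hl.extend_apply _ _ k
  have e2 : ∀ e, (∀ k, lab k ≠ e) → extend lab (fun k => α * ω (lab k) + g k ω) ω e = ω e :=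
    fun e he => extend_apply' _ _ _ fun ⟨k, hk⟩ => he k hk
  exact ⟨fun k _ => (h ω hω).1 k, _, (h ω hω).2 _ e1 e2, fun k _ => e1 k,
    fun e he => e2 e fun k => he k (Finset.mem_univ k)⟩

/-- a measurable set with short fibres in one direction is small -/
lemma small_fiber (ν : ι → Measure ℝ) [∀ e, IsProbabilityMeasure (ν e)] (e : ι) {ε : ℝ}
    {K : ℝ≥0∞} (hν : ∀ a : ℝ, ν e (Icc (a - ε) (a + ε)) ≤ K) {S : Set (ι → ℝ)}
    (hS : MeasurableSet S)
    (h : ∀ ω x x', update ω e x ∈ S → update ω e x' ∈ S → |x - x'| ≤ ε) :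
    Measure.pi ν S ≤ K := by
  have := pi_le_of_fiber ν e hS MeasurableSet.univ K fun ω => by
    simp only [mem_univ, setOf_true, measure_univ, mul_one]
    rcases {x | update ω e x ∈ S}.eq_empty_or_nonempty with h0 | ⟨a, ha⟩
    · rw [h0]; simp
    · refine le_trans (measure_mono fun x hx => ?_) (hν a)
      have := abs_le.mp (h ω x a hx ha)
      constructor <;> linarith [this.1, this.2]
  simpa using this

lemma meas_exists {X Y : Type*} [TopologicalSpace X] [MeasurableSpace X] [OpensMeasurableSpace X]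
    [TopologicalSpace Y] [SigmaCompactSpace Y] {p : X → Y → Prop}
    (h : IsClosed {q : X × Y | p q.1 q.2}) : MeasurableSet {x | ∃ y, p x y} := by
  have : {x | ∃ y, p x y} = ⋃ k : ℕ, {x | ∃ y ∈ compactCovering Y k, p x y} := by
    ext x
    simp only [mem_setOf_eq, mem_iUnion]
    constructor
    · rintro ⟨y, hy⟩
      obtain ⟨k, hk⟩ := exists_mem_compactCovering y
      exact ⟨k, y, hk, hy⟩
    · rintro ⟨k, y, -, hy⟩
      exact ⟨y, hy⟩
  rw [this]
  refine MeasurableSet.iUnion fun k => IsClosed.measurableSet ?_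
  have hc : CompactSpace (compactCovering Y k) :=
    isCompact_iff_compactSpace.mp (isCompact_compactCovering Y k)
  have h1 : IsClosed {q : X × compactCovering Y k | p q.1 q.2} :=
    h.preimage (f := fun q : X × compactCovering Y k => (q.1, (q.2 : Y))) (by fun_prop)
  have h2 := isClosedMap_fst_of_compactSpace _ h1
  convert h2 using 1
  ext x
  simp

end Pool.Agent.H780Z.SD
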