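import Pool.Agent.H780Z.SD.Count
import Pool.Agent.H780Z.SD.Meas

set_option autoImplicit false
set_option linter.unusedSectionVars false

/-! Probabilistic part for a fixed pattern. -/

namespace Pool.Agent.H780Z.SD

open MeasureTheory Function Finset
open scoped ENNReal

variable {ι : Type*} [Fintype ι] [DecidableEq ι]
variable {m n : Type*} [Fintype m] [Fintype n] [DecidableEq m] [DecidableEq n]

/-- positions of the data -/
abbrev Lab (m n : Type*) := (m × n) ⊕ (m ⊕ n)

/-- the matrix read from a sample -/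
def dA (s : ℝ) (lab : Lab m n → ι) (ω : ι → ℝ) : m → n → ℝ :=
  fun i j => s * ω (lab (Sum.inl (i, j)))

/-- the right hand side read from a sample -/
def db (s : ℝ) (lab : Lab m n → ι) (ω : ι → ℝ) : m → ℝ :=
  fun i => s * ω (lab (Sum.inr (Sum.inl i)))

/-- the objective read from a sample -/
def dc (s : ℝ) (lab : Lab m n → ι) (ω : ι → ℝ) : n → ℝ :=
  fun j => s * ω (lab (Sum.inr (Sum.inr j)))

/-- positions of the dual program -/
def sw : Lab n m → Lab m n
  | Sum.inl p => Sum.inl (p.2, p.1)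
  | Sum.inr (Sum.inl j) => Sum.inr (Sum.inr j)
  | Sum.inr (Sum.inr i) => Sum.inr (Sum.inl i)

lemma sw_inj : Injective (sw : Lab n m → Lab m n) := by
  rintro (⟨a, b⟩ | a | a) (⟨c, d⟩ | c | c) h <;> simp [sw] at h ⊢ <;> tauto

/-- bounded samples having a solution with given properties -/
def Ev (s : ℝ) (lab : Lab m n → ι) (I : Finset m) (J : Finset n) (D : ℝ)
    (P : (n → ℝ) → (m → ℝ) → Prop) (Q : (m → ℝ) → (n → ℝ) → Prop) : Set (ι → ℝ) :=
  {ω | (∀ e, |ω e| ≤ D) ∧ ∃ t x w y z,
    Sol (dA s lab ω) (db s lab ω) (dc s lab ω) I J t x w y z ∧ P x w ∧ Q y z}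

lemma Ev_dual (s : ℝ) (lab : Lab m n → ι) (I : Finset m) (J : Finset n) (D : ℝ)
    (P : (n → ℝ) → (m → ℝ) → Prop) (Q : (m → ℝ) → (n → ℝ) → Prop) :
    Ev s lab I J D P Q = Ev (-s) (lab ∘ sw) J I D Q P := by
  ext ω
  constructor
  · rintro ⟨h0, t, x, w, y, z, h, hP, hQ⟩
    exact ⟨h0, t, y, z, x, w, h.dual (fun j i => by simp [dA, sw]) (fun j => by simp [db, dc, sw])
      (fun i => by simp [db, dc, sw]), hQ, hP⟩
  · rintro ⟨h0, t, y, z, x, w, h, hQ, hP⟩
    exact ⟨h0, t, x, w, y, z, h.dual (fun j i => by simp [dA, sw]) (fun j => by simp [db, dc, sw])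
      (fun i => by simp [db, dc, sw]), hP, hQ⟩

lemma abs_sum_ind {s D : ℝ} (hs : |s| = 1) {ω : ι → ℝ} (h : ∀ e, |ω e| ≤ D) (hD : 0 ≤ D)
    (T : Finset n) (f : n → ι) (u : ℝ) (hu : |u| ≤ 1) :
    |∑ k ∈ T, s * ω (f k) + u| ≤ Fintype.card n * D + 1 := by
  refine (abs_add_le _ _).trans (add_le_add ((abs_sum_le_sum_abs _ _).trans ?_) hu)
  have := sum_le_card_nsmul T (fun k => |s * ω (f k)|) D fun k _ => by
    rw [abs_mul, hs, one_mul]; exact h _
  rw [nsmul_eq_mul] at this
  refine this.trans (mul_le_mul_of_nonneg_right ?_ hD)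
  exact_mod_cast card_le_univ T

lemma box_after {κ : Type*} (l : κ → ι) {D δ : ℝ} (hδ : 0 ≤ δ) {ω ω' : ι → ℝ}
    (h : ∀ e, |ω e| ≤ D) (h1 : ∀ k, |ω' (l k) - ω (l k)| ≤ δ)
    (h2 : ∀ e, (∀ k, l k ≠ e) → ω' e = ω e) (e : ι) : |ω' e| ≤ D + δ := by
  by_cases he : ∃ k, l k = e
  · obtain ⟨k, rfl⟩ := he
    have := abs_add_le (ω' (l k) - ω (l k)) (ω (l k))
    rw [sub_add_cancel] at this
    linarith [h1 k, h (l k)]
  · rw [h2 e fun k hk => he ⟨k, hk⟩]
    linarith [h e]

theorem improve (ν : ι → Measure ℝ) [∀ e, IsProbabilityMeasure (ν e)] {D δ η Φ s : ℝ} {K : ℝ≥0∞}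
    (hq : ∀ e, QI (ν e) D δ K) (hK : 1 ≤ K) (hs : |s| = 1) {lab : Lab m n → ι}
    (hl : Injective lab) (hD : 0 ≤ D) (hη : 0 ≤ η) (hη1 : η ≤ 1 / 4)
    (hη2 : 2 * η * Fintype.card n ≤ 1 / 2) (hδ : 4 * η * (2 * Fintype.card n * D + 1) ≤ δ)
    (hΦ : 1 ≤ Φ) (I : Finset m) (J : Finset n) (Q : (m → ℝ) → (n → ℝ) → Prop) :
    Measure.pi ν (Ev s lab I J D (fun x _ => ∀ j, x j ≤ Φ) Q) ≤
      (Fintype.card n + 1) * K ^ (Fintype.card m + 1) *
        Measure.pi ν (Ev s lab I J (D + δ) (Good η (2 * Φ) I J) Q) := by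
  have hss : s * s = 1 := by rw [← abs_mul_abs_self, hs, one_mul]
  have hn0 : (0 : ℝ) ≤ Fintype.card n := Nat.cast_nonneg _
  have hnD : 0 ≤ Fintype.card n * D := by positivity
  have hδ0 : 0 ≤ δ := le_trans (by positivity) hδ
  have hind : ∀ i : m, |(if i ∈ I then 0 else 1 : ℝ)| ≤ 1 := fun i => by split_ifs <;> simp
  set G := Ev s lab I J (D + δ) (Good η (2 * Φ) I J) Q with hG
  have h0 : Measure.pi ν (Ev s lab I J D (fun x _ => ∀ j, x j ≤ 1) Q) ≤
      K ^ (Fintype.card m + 1) * Measure.pi ν G := by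
    refine le_trans (qi_block ν hq (fun i : m => lab (Sum.inr (Sum.inl i)))
      (fun a b h => by simpa using hl h) le_rfl
      (fun i ω => s * (2 * η * (∑ j ∈ J, dA s lab ω i j + if i ∈ I then 0 else 1)))
      (fun i => by unfold dA; fun_prop) (fun i i' ω x => ?_) _ G ?_) ?_
    · have : ∀ j, lab (Sum.inl (i, j)) ≠ lab (Sum.inr (Sum.inl i')) := fun j => hl.ne (by simp)
      simp only [dA, update_of_ne (this _)]
    · rintro ω ⟨hb, t, x, w, y, z, h, hP, hQ⟩
      have hd : ∀ i, |1 * ω (lab (Sum.inr (Sum.inl i))) +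
          s * (2 * η * (∑ j ∈ J, dA s lab ω i j + if i ∈ I then 0 else 1)) -
          ω (lab (Sum.inr (Sum.inl i)))| ≤ δ := fun i => by
        rw [one_mul, add_sub_cancel_left, abs_mul, hs, one_mul, abs_mul,
          abs_of_nonneg (by positivity : 0 ≤ 2 * η)]
        have := abs_sum_ind hs hb hD J (fun j => lab (Sum.inl (i, j))) _ (hind i)
        have := mul_le_mul_of_nonneg_left this (by positivity : 0 ≤ 2 * η)
        refine le_trans this ?_
        nlinarith
      refine ⟨fun i => ⟨hb _, hd i⟩, fun ω' h1 h2 => ⟨box_after _ hδ0 hb (fun i => ?_) h2, ?_⟩⟩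
      · rw [h1]; exact hd i
      · have eA : dA s lab ω' = dA s lab ω := by
          ext i j
          simp only [dA]
          rw [h2 _ fun k => hl.ne (by simp)]
        have ec : dc s lab ω' = dc s lab ω := by
          ext j
          simp only [dc]
          rw [h2 _ fun k => hl.ne (by simp)]
        obtain ⟨x', w', a1, a2⟩ := h.shift hη (by linarith) hΦ hP (b' := db s lab ω') fun i => by
          simp only [db]
          rw [h1]
          linear_combination (2 * η * (∑ j ∈ J, dA s lab ω i j + if i ∈ I then 0 else 1)) * hss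
        exact ⟨t, x', w', y, z, by rw [eA, ec]; exact a1, a2, hQ⟩
    · gcongr
      omega
  have h1 : ∀ j₀ : n, Measure.pi ν (Ev s lab I J D
      (fun x _ => j₀ ∈ J ∧ 1 ≤ x j₀ ∧ x j₀ ≤ Φ ∧ ∀ j, x j ≤ x j₀) Q) ≤
      K ^ (Fintype.card m + 1) * Measure.pi ν G := by
    intro j₀
    have hr : ((J.erase j₀).card : ℝ) ≤ Fintype.card n := by exact_mod_cast card_le_univ _
    have hρ0 : 0 ≤ 2 * η * ((J.erase j₀).card : ℝ) := by positivity
    have hρ1 : 2 * η * ((J.erase j₀).card : ℝ) ≤ 2 * η * Fintype.card n := by gcongr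
    have hρ : 2 * η * ((J.erase j₀).card : ℝ) ≤ 1 / 2 := hρ1.trans hη2
    set α : ℝ := (1 - 2 * η * ((J.erase j₀).card : ℝ))⁻¹ with hαd
    have hα : α * (1 - 2 * η * ((J.erase j₀).card : ℝ)) = 1 := inv_mul_cancel₀ (by linarith)
    have hα0 : 0 < α := inv_pos.mpr (by linarith)
    have hα1 : 1 ≤ α := by nlinarith
    have hα2 : α ≤ 2 := by nlinarith
    have hα3 : α - 1 ≤ 4 * η * Fintype.card n := by nlinarith
    let l : Option m → ι := fun k => lab (k.elim (Sum.inr (Sum.inr j₀)) fun i => Sum.inl (i, j₀))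
    let u : Option m → (ι → ℝ) → ℝ := fun k ω => k.elim (∑ k ∈ J.erase j₀, dc s lab ω k + 0)
      fun i => ∑ k ∈ J.erase j₀, dA s lab ω i k + if i ∈ I then 0 else 1
    rw [← Fintype.card_option]
    refine qi_block ν hq l (fun a b h => ?_) hα1 (fun k ω => -(s * (α * (2 * η) * u k ω)))
      (fun k => ?_) (fun k k' ω x => ?_) _ G ?_
    · have := hl h
      cases a <;> cases b <;> simp at this ⊢
      exact this
    · cases k <;> simp only [u, dA, dc, Option.elim] <;> fun_prop
    · have e1 : ∀ i, ∀ j ∈ J.erase j₀, dA s lab (update ω (l k') x) i j = dA s lab ω i j := by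
        intro i j hj
        have : lab (Sum.inl (i, j)) ≠ l k' := hl.ne (by
          cases k' <;> simp [ne_of_mem_erase hj])
        simp only [dA, update_of_ne this]
      have e2 : ∀ j ∈ J.erase j₀, dc s lab (update ω (l k') x) j = dc s lab ω j := by
        intro j hj
        have : lab (Sum.inr (Sum.inr j)) ≠ l k' := hl.ne (by
          cases k' <;> simp [ne_of_mem_erase hj])
        simp only [dc, update_of_ne this]
      cases k
      · simp only [u, Option.elim]
        rw [sum_congr rfl e2]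
      · simp only [u, Option.elim]
        rw [sum_congr rfl (e1 _)]
    · rintro ω ⟨hb, t, x, w, y, z, h, ⟨p1, p2, p3, p4⟩, hQ⟩
      have hu : ∀ k, |u k ω| ≤ Fintype.card n * D + 1 := fun k => by
        cases k
        · exact abs_sum_ind hs hb hD _ (fun j => lab (Sum.inr (Sum.inr j))) 0 (by simp)
        · exact abs_sum_ind hs hb hD _ (fun j => lab (Sum.inl (_, j))) _ (hind _)
      have hd : ∀ k, |α * ω (l k) + -(s * (α * (2 * η) * u k ω)) - ω (l k)| ≤ δ := fun k => by
        have e : α * ω (l k) + -(s * (α * (2 * η) * u k ω)) - ω (l k) =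
            (α - 1) * ω (l k) - s * (α * (2 * η) * u k ω) := by ring
        rw [e]
        refine (abs_sub _ _).trans ?_
        rw [abs_mul, abs_mul, hs, one_mul, abs_mul, abs_of_nonneg (by linarith : 0 ≤ α - 1),
          abs_of_nonneg (by positivity : 0 ≤ α * (2 * η))]
        have f1 : (α - 1) * |ω (l k)| ≤ 4 * η * Fintype.card n * D :=
          mul_le_mul hα3 (hb _) (abs_nonneg _) (by positivity)
        have f2 : α * (2 * η) * |u k ω| ≤ 2 * (2 * η) * (Fintype.card n * D + 1) :=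
          mul_le_mul (by gcongr) (hu k) (abs_nonneg _) (by positivity)
        linarith
      refine ⟨fun k => ⟨hb _, hd k⟩, fun ω' h1 h2 => ⟨box_after l hδ0 hb (fun k => ?_) h2, ?_⟩⟩
      · rw [h1]; exact hd k
      · have eb : db s lab ω' = db s lab ω := by
          ext i
          simp only [db]
          rw [h2 _ fun k => hl.ne (by cases k <;> simp)]
        obtain ⟨x', w', a1, a2⟩ := h.column hη hη1 p1 p2 p3 p4 hρ hα (A' := dA s lab ω')
          (c' := dc s lab ω')
          (fun i j hj => by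
            simp only [dA]
            rw [h2 _ fun k => hl.ne (by cases k <;> simp [hj.symm])])
          (fun i => by
            have := h1 (some i)
            simp only [l, u, Option.elim] at this
            rw [dA, this, dA]
            linear_combination (-(α * (2 * η) *
              (∑ k ∈ J.erase j₀, dA s lab ω i k + if i ∈ I then 0 else 1))) * hss)
          (fun j hj => by
            simp only [dc]
            rw [h2 _ fun k => hl.ne (by cases k <;> simp [hj.symm])])
          (by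
            have := h1 none
            simp only [l, u, Option.elim] at this
            rw [dc, this, dc]
            linear_combination (-(α * (2 * η) * (∑ k ∈ J.erase j₀, dc s lab ω k))) * hss)
        exact ⟨t, x', w', y, z, by rw [eb]; exact a1, a2, hQ⟩
  have hsub : Ev s lab I J D (fun x _ => ∀ j, x j ≤ Φ) Q ⊆
      Ev s lab I J D (fun x _ => ∀ j, x j ≤ 1) Q ∪ ⋃ j₀ : n, Ev s lab I J D
        (fun x _ => j₀ ∈ J ∧ 1 ≤ x j₀ ∧ x j₀ ≤ Φ ∧ ∀ j, x j ≤ x j₀) Q := by
    rintro ω ⟨hb, t, x, w, y, z, h, hP, hQ⟩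
    by_cases hx : ∀ j, x j ≤ 1
    · exact Or.inl ⟨hb, t, x, w, y, z, h, hx, hQ⟩
    · push Not at hx
      obtain ⟨j, hj⟩ := hx
      obtain ⟨j₀, -, hj₀⟩ := exists_max_image univ x ⟨j, mem_univ j⟩
      have := hj₀ j (mem_univ j)
      refine Or.inr (Set.mem_iUnion.mpr ⟨j₀, hb, t, x, w, y, z, h, ⟨?_, by linarith, hP j₀,
        fun k => hj₀ k (mem_univ k)⟩, hQ⟩)
      by_contra hn
      rw [h.xs j₀ hn] at this
      linarith
  refine (measure_mono hsub).trans ((measure_union_le _ _).trans ?_)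
  refine (add_le_add h0 ((measure_iUnion_fintype_le _ _).trans
    (sum_le_card_nsmul univ _ _ fun j _ => h1 j))).trans (le_of_eq ?_)
  rw [card_univ, nsmul_eq_mul]
  ring

end Pool.Agent.H780Z.SD
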